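import Pool.Agent.W307.LP5

set_option autoImplicit false

namespace Pool.Agent.W307.LP

open Set

/-- properties of `n` subsets of the ground set of a matroid -/
abbrev Pr (n : ℕ) : Type 1 := (α : Type) → Matroid α → (Fin n → Set α) → Prop

/-- the property is defined by a formula (in finite matroids) -/
def Dfn {n : ℕ} (p : Pr n) : Prop := ∃ φ : Formula n, ∀ (α : Type) (M : Matroid α)
  (v : Fin n → Set α), M.Finite → (∀ i, v i ⊆ M.E) → (Sat M φ v ↔ p α M v)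

variable {n : ℕ}

lemma Dfn.congr {p q : Pr n} (h : Dfn p) (hpq : ∀ (α : Type) (M : Matroid α) (v : Fin n → Set α),
    M.Finite → (∀ i, v i ⊆ M.E) → (p α M v ↔ q α M v)) : Dfn q := by
  obtain ⟨φ, hφ⟩ := h
  exact ⟨φ, fun α M v hM hv => (hφ α M v hM hv).trans (hpq α M v hM hv)⟩

lemma Dfn.ind (i : Fin n) : Dfn (n := n) (fun _ M v => M.Indep (v i)) :=
  ⟨.ind i, fun _ _ _ _ _ => Iff.rfl⟩

lemma Dfn.sub (i j : Fin n) : Dfn (n := n) (fun _ _ v => v i ⊆ v j) :=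
  ⟨.sub i j, fun _ _ _ _ _ => Iff.rfl⟩

lemma Dfn.not {p : Pr n} (h : Dfn p) : Dfn (n := n) (fun α M v => ¬ p α M v) := by
  obtain ⟨φ, hφ⟩ := h
  exact ⟨.neg φ, fun α M v hM hv => not_congr (hφ α M v hM hv)⟩

lemma Dfn.and {p q : Pr n} (h : Dfn p) (h' : Dfn q) :
    Dfn (n := n) (fun α M v => p α M v ∧ q α M v) := by
  obtain ⟨φ, hφ⟩ := h
  obtain ⟨ψ, hψ⟩ := h'
  exact ⟨.and φ ψ, fun α M v hM hv => and_congr (hφ α M v hM hv) (hψ α M v hM hv)⟩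

lemma Dfn.or {p q : Pr n} (h : Dfn p) (h' : Dfn q) :
    Dfn (n := n) (fun α M v => p α M v ∨ q α M v) := by
  obtain ⟨φ, hφ⟩ := h
  obtain ⟨ψ, hψ⟩ := h'
  exact ⟨.or φ ψ, fun α M v hM hv => or_congr (hφ α M v hM hv) (hψ α M v hM hv)⟩

lemma Dfn.imp {p q : Pr n} (h : Dfn p) (h' : Dfn q) :
    Dfn (n := n) (fun α M v => p α M v → q α M v) := by
  obtain ⟨φ, hφ⟩ := h
  obtain ⟨ψ, hψ⟩ := h'
  exact ⟨.imp φ ψ, fun α M v hM hv => imp_congr (hφ α M v hM hv) (hψ α M v hM hv)⟩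

lemma cons_sub {α : Type} {M : Matroid α} {v : Fin n → Set α} {X : Set α} (hX : X ⊆ M.E)
    (hv : ∀ i, v i ⊆ M.E) : ∀ i, (Fin.cons X v : Fin (n + 1) → Set α) i ⊆ M.E := by
  intro i
  refine Fin.cases ?_ ?_ i
  · exact hX
  · exact hv

lemma Dfn.ex {q : (α : Type) → Matroid α → (Fin n → Set α) → Set α → Prop}
    (h : Dfn (n := n + 1) (fun α M w => q α M (fun i => w i.succ) (w 0))) :
    Dfn (n := n) (fun α M v => ∃ X, X ⊆ M.E ∧ q α M v X) := by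
  obtain ⟨φ, hφ⟩ := h
  refine ⟨.ex φ, fun α M v hM hv => exists_congr fun X => ?_⟩
  constructor
  · rintro ⟨hX, h⟩; exact ⟨hX, (hφ α M (Fin.cons X v) hM (cons_sub hX hv)).1 h⟩
  · rintro ⟨hX, h⟩; exact ⟨hX, (hφ α M (Fin.cons X v) hM (cons_sub hX hv)).2 h⟩

lemma Dfn.all {q : (α : Type) → Matroid α → (Fin n → Set α) → Set α → Prop}
    (h : Dfn (n := n + 1) (fun α M w => q α M (fun i => w i.succ) (w 0))) :
    Dfn (n := n) (fun α M v => ∀ X, X ⊆ M.E → q α M v X) := by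
  obtain ⟨φ, hφ⟩ := h
  refine ⟨.all φ, fun α M v hM hv => forall_congr' fun X => ?_⟩
  constructor
  · intro h hX; exact (hφ α M (Fin.cons X v) hM (cons_sub hX hv)).1 (h hX)
  · intro h hX; exact (hφ α M (Fin.cons X v) hM (cons_sub hX hv)).2 (h hX)

/-- being contained in a union -/
lemma Dfn.subUnion (i j k : Fin n) : Dfn (n := n) (fun _ _ v => v i ⊆ v j ∪ v k) := by
  refine (Dfn.all (q := fun _ _ v X => v j ⊆ X → v k ⊆ X → v i ⊆ X)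
    ((Dfn.sub j.succ 0).imp ((Dfn.sub k.succ 0).imp (Dfn.sub i.succ 0)))).congr ?_
  intro α M v hM hv
  constructor
  · intro h
    exact h (v j ∪ v k) (union_subset (hv j) (hv k)) subset_union_left subset_union_right
  · intro h X _ h1 h2
    exact h.trans (union_subset h1 h2)

/-- being empty -/
lemma Dfn.empty (i : Fin n) : Dfn (n := n) (fun _ _ v => v i = ∅) := by
  refine (Dfn.all (q := fun _ _ v X => v i ⊆ X) (Dfn.sub i.succ 0)).congr ?_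
  intro α M v hM hv
  constructor
  · intro h; exact subset_empty_iff.1 (h ∅ (empty_subset _))
  · intro h X _; rw [h]; exact empty_subset _

/-- being disjoint -/
lemma Dfn.disj (i j : Fin n) : Dfn (n := n) (fun _ _ v => ∀ x ∈ v i, x ∉ v j) := by
  refine (Dfn.all (q := fun _ _ v X => X ⊆ v i → X ⊆ v j → X = ∅)
    ((Dfn.sub 0 i.succ).imp ((Dfn.sub 0 j.succ).imp (Dfn.empty 0)))).congr ?_
  intro α M v hM hv
  constructor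
  · intro h x hx hx'
    have := h (v i ∩ v j) (inter_subset_left.trans (hv i)) inter_subset_left inter_subset_right
    have h2 : x ∈ v i ∩ v j := ⟨hx, hx'⟩
    rw [this] at h2
    exact h2
  · intro h X _ h1 h2
    rw [eq_empty_iff_forall_notMem]
    intro x hx
    exact h x (h1 hx) (h2 hx)

lemma Dfn.isCircuit (i : Fin n) : Dfn (n := n) (fun _ M v => M.IsCircuit (v i)) := by
  refine ((Dfn.ind i).not.and (Dfn.all (q := fun _ M v X => X ⊆ v i → (v i ⊆ X ∨ M.Indep X))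
    ((Dfn.sub 0 i.succ).imp ((Dfn.sub i.succ 0).or (Dfn.ind 0))))).congr ?_
  intro α M v hM hv
  rw [Matroid.isCircuit_iff_forall_ssubset]
  constructor
  · rintro ⟨h1, h2⟩
    refine ⟨(Matroid.not_indep_iff (hv i)).1 h1, ?_⟩
    intro I hI
    rcases h2 I (hI.subset.trans (hv i)) hI.subset with h | h
    · exact absurd h hI.2
    · exact h
  · rintro ⟨h1, h2⟩
    refine ⟨h1.not_indep, ?_⟩
    intro X _ hX
    by_cases h : v i ⊆ X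
    · exact Or.inl h
    · exact Or.inr (h2 ⟨hX, h⟩)

lemma Dfn.isBasis (i j : Fin n) : Dfn (n := n) (fun _ M v => M.IsBasis (v i) (v j)) := by
  refine ((Dfn.ind i).and ((Dfn.sub i j).and (Dfn.all
    (q := fun _ M v X => v i ⊆ X → X ⊆ v j → M.Indep X → X ⊆ v i)
    ((Dfn.sub i.succ 0).imp ((Dfn.sub 0 j.succ).imp ((Dfn.ind 0).imp (Dfn.sub 0 i.succ))))))).congr ?_
  intro α M v hM hv
  constructor
  · rintro ⟨h1, h2, h3⟩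
    rw [Matroid.isBasis_iff (hv j)]
    refine ⟨h1, h2, ?_⟩
    intro J hJ hiJ hJj
    exact subset_antisymm hiJ (h3 J (hJj.trans (hv j)) hiJ hJj hJ)
  · intro h
    refine ⟨h.indep, h.subset, ?_⟩
    intro X _ h1 h2 h3
    rw [h.eq_of_subset_indep h3 h1 h2]

lemma Dfn.subClosure (i j : Fin n) : Dfn (n := n) (fun _ M v => v i ⊆ M.closure (v j)) := by
  refine (Dfn.all (q := fun _ M v I => M.IsBasis I (v j) → ∀ J, J ⊆ M.E →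
      (I ⊆ J → M.Indep J → J ⊆ v i ∪ v j → J ⊆ I))
    ((Dfn.isBasis 0 j.succ).imp (Dfn.all
      (q := fun _ M w J => w 0 ⊆ J → M.Indep J → J ⊆ w i.succ ∪ w j.succ → J ⊆ w 0)
      ((Dfn.sub (Fin.succ 0) 0).imp ((Dfn.ind 0).imp
        ((Dfn.subUnion 0 i.succ.succ j.succ.succ).imp (Dfn.sub 0 (Fin.succ 0)))))))).congr ?_
  intro α M v hM hv
  constructor
  · intro h x hx
    obtain ⟨I, hI⟩ := M.exists_isBasis (v j) (hv j)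
    rw [← hI.closure_eq_closure]
    by_contra hcon
    have hxE := hv i hx
    have hind : M.Indep (insert x I) := by
      have := (hI.indep.notMem_closure_iff hxE).1 hcon
      exact this.1
    have h1 := h I hI.indep.subset_ground hI (insert x I) hind.subset_ground (subset_insert _ _)
      hind (insert_subset (Or.inl hx) (hI.subset.trans subset_union_right))
    exact hcon (M.mem_closure_of_mem (h1 (mem_insert _ _)) hI.indep.subset_ground)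
  · intro h I _ hI J _ hIJ hJ hJs
    have h1 : J ⊆ M.closure I := by
      rw [hI.closure_eq_closure]
      exact hJs.trans (union_subset h (M.subset_closure _ (hv j)))
    have h2 : M.IsBasis I J := hI.indep.isBasis_of_subset_of_subset_closure hIJ h1
    rw [← h2.eq_of_subset_indep hJ hIJ subset_rfl]

lemma Dfn.sep (i : Fin n) : Dfn (n := n) (fun _ M v => Sep M (v i)) := by
  refine (Dfn.all (q := fun _ M v C => M.IsCircuit C → (C ⊆ v i ∨ ∀ x ∈ C, x ∉ v i))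
    ((Dfn.isCircuit 0).imp ((Dfn.sub 0 i.succ).or (Dfn.disj 0 i.succ)))).congr ?_
  intro α M v hM hv
  exact ⟨fun h C hC => h C hC.subset_ground hC, fun h C _ hC => h C hC⟩

lemma Dfn.comp (i : Fin n) : Dfn (n := n) (fun _ M v => Comp M (v i)) := by
  refine ((Dfn.empty i).not.and ((Dfn.sep i).and (Dfn.all
    (q := fun _ M v L => L ⊆ v i → ¬ L = ∅ → Sep M L → v i ⊆ L)
    ((Dfn.sub 0 i.succ).imp ((Dfn.empty 0).not.imp ((Dfn.sep 0).imp (Dfn.sub i.succ 0))))))).congr ?_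
  intro α M v hM hv
  constructor
  · rintro ⟨h1, h2, h3⟩
    refine ⟨hv i, nonempty_iff_ne_empty.2 h1, h2, ?_⟩
    intro L hL hLn hLs
    exact h3 L (hL.trans (hv i)) hL (nonempty_iff_ne_empty.1 hLn) hLs
  · rintro ⟨h0, h1, h2, h3⟩
    refine ⟨nonempty_iff_ne_empty.1 h1, h2, ?_⟩
    intro L _ hL hLn hLs
    exact h3 L hL (nonempty_iff_ne_empty.2 hLn) hLs

lemma Dfn.cf (i j : Fin n) : Dfn (n := n) (fun _ M v => CF M (v i) (v j)) := by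
  refine (Dfn.ex (q := fun _ M v C => M.IsCircuit C ∧ C ⊆ v i ∧ v j ⊆ M.closure C ∧ v j ⊆ v i ∧
      ∀ X, X ⊆ M.E → (X ⊆ v i → X ⊆ M.closure C → X ⊆ v j))
    ((Dfn.isCircuit 0).and ((Dfn.sub 0 i.succ).and ((Dfn.subClosure j.succ 0).and
      ((Dfn.sub j.succ i.succ).and (Dfn.all
        (q := fun _ M w X => X ⊆ w i.succ → X ⊆ M.closure (w 0) → X ⊆ w j.succ)
        ((Dfn.sub 0 i.succ.succ).imp ((Dfn.subClosure 0 (Fin.succ 0)).imp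
          (Dfn.sub 0 j.succ.succ))))))))).congr ?_
  intro α M v hM hv
  constructor
  · rintro ⟨C, _, hC, hCi, h1, h2, h3⟩
    refine ⟨C, hC, hCi, ?_⟩
    exact subset_antisymm (subset_inter h1 h2) (h3 _ (inter_subset_left.trans
      (M.closure_subset_ground C)) inter_subset_right inter_subset_left)
  · rintro ⟨C, hC, hCi, h⟩
    refine ⟨C, hC.subset_ground, hC, hCi, ?_, ?_, ?_⟩
    · rw [h]; exact inter_subset_left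
    · rw [h]; exact inter_subset_right
    · intro X _ h1 h2; rw [h]; exact subset_inter h2 h1

lemma Dfn.modu (i j k : Fin n) : Dfn (n := n) (fun _ M v => Modu M (v i) (v j) (v k)) := by
  have key : ∀ (m : ℕ) (b z : Fin m), Dfn (n := m) (fun _ M v => ∃ I, I ⊆ M.E ∧
      (I ⊆ v b ∧ I ⊆ v z ∧ v z ⊆ M.closure I)) := by
    intro m b z
    exact Dfn.ex (q := fun _ M v I => I ⊆ v b ∧ I ⊆ v z ∧ v z ⊆ M.closure I)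
      ((Dfn.sub 0 b.succ).and ((Dfn.sub 0 z.succ).and (Dfn.subClosure z.succ 0)))
  refine (Dfn.ex (q := fun _ M v B => M.Indep B ∧
      (∃ I, I ⊆ M.E ∧ (I ⊆ B ∧ I ⊆ v i ∧ v i ⊆ M.closure I)) ∧
      (∃ I, I ⊆ M.E ∧ (I ⊆ B ∧ I ⊆ v j ∧ v j ⊆ M.closure I)) ∧
      (∃ I, I ⊆ M.E ∧ (I ⊆ B ∧ I ⊆ v k ∧ v k ⊆ M.closure I)))
    ((Dfn.ind 0).and ((key (n + 1) 0 i.succ).and ((key (n + 1) 0 j.succ).and
      (key (n + 1) 0 k.succ))))).congr ?_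
  intro α M v hM hv
  constructor
  · rintro ⟨B, _, hB, ⟨I₁, _, h1, h2, h3⟩, ⟨I₂, _, h4, h5, h6⟩, ⟨I₀, _, h7, h8, h9⟩⟩
    exact ⟨B, I₁, I₂, I₀, hB, h1, h2, h3, h4, h5, h6, h7, h8, h9⟩
  · rintro ⟨B, I₁, I₂, I₀, hB, h1, h2, h3, h4, h5, h6, h7, h8, h9⟩
    have hBE := hB.subset_ground
    exact ⟨B, hBE, hB, ⟨I₁, h1.trans hBE, h1, h2, h3⟩, ⟨I₂, h4.trans hBE, h4, h5, h6⟩,
      ⟨I₀, h7.trans hBE, h7, h8, h9⟩⟩

lemma cf_ground {α : Type} {M : Matroid α} {K Z : Set α} (h : CF M K Z) : Z ⊆ M.E := by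
  obtain ⟨C, _, _, rfl⟩ := h
  exact inter_subset_left.trans (M.closure_subset_ground C)

/-- The condition on a component is definable. -/
lemma Dfn.cond (k : Fin n) : Dfn (n := n) (fun _ M v => Cond M (v k)) := by
  -- two chains
  have hch : ∀ (m : ℕ) (k a b : Fin m), Dfn (n := m) (fun _ M v => ∀ Z, Z ⊆ M.E →
      ∀ Z', Z' ⊆ M.E → (CF M (v k) Z → CF M (v k) Z' → v a ⊆ Z → v a ⊆ Z' → ¬ v b ⊆ Z →
        ¬ v b ⊆ Z' → (Z ⊆ Z' ∨ Z' ⊆ Z))) := by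
    intro m k a b
    exact Dfn.all (q := fun _ M v Z => ∀ Z', Z' ⊆ M.E → (CF M (v k) Z → CF M (v k) Z' →
        v a ⊆ Z → v a ⊆ Z' → ¬ v b ⊆ Z → ¬ v b ⊆ Z' → (Z ⊆ Z' ∨ Z' ⊆ Z)))
      (Dfn.all (q := fun _ M w Z' => CF M (w k.succ) (w 0) → CF M (w k.succ) Z' →
        w a.succ ⊆ w 0 → w a.succ ⊆ Z' → ¬ w b.succ ⊆ w 0 → ¬ w b.succ ⊆ Z' →
          (w 0 ⊆ Z' ∨ Z' ⊆ w 0))
      ((Dfn.cf k.succ.succ (Fin.succ 0)).imp ((Dfn.cf k.succ.succ 0).imp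
        ((Dfn.sub a.succ.succ (Fin.succ 0)).imp ((Dfn.sub a.succ.succ 0).imp
          ((Dfn.sub b.succ.succ (Fin.succ 0)).not.imp ((Dfn.sub b.succ.succ 0).not.imp
            ((Dfn.sub (Fin.succ 0) 0).or (Dfn.sub 0 (Fin.succ 0))))))))))
  have hboth : ∀ (m : ℕ) (k a b : Fin m), Dfn (n := m) (fun _ M v => ∀ Z, Z ⊆ M.E →
      (CF M (v k) Z → v a ⊆ Z → v b ⊆ Z → v k ⊆ Z)) := by
    intro m k a b
    exact Dfn.all (q := fun _ M v Z => CF M (v k) Z → v a ⊆ Z → v b ⊆ Z → v k ⊆ Z)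
      ((Dfn.cf k.succ 0).imp ((Dfn.sub a.succ 0).imp ((Dfn.sub b.succ 0).imp (Dfn.sub k.succ 0))))
  have hcross : ∀ (m : ℕ) (k a b : Fin m), Dfn (n := m) (fun _ M v => ∀ Z, Z ⊆ M.E →
      ∀ Z', Z' ⊆ M.E → (CF M (v k) Z → CF M (v k) Z' → v a ⊆ Z → ¬ v b ⊆ Z → v b ⊆ Z' →
        ¬ v a ⊆ Z' → ((∀ x ∈ Z, x ∉ Z') ∨ v k ⊆ Z ∪ Z'))) := by
    intro m k a b
    exact Dfn.all (q := fun _ M v Z => ∀ Z', Z' ⊆ M.E → (CF M (v k) Z → CF M (v k) Z' →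
        v a ⊆ Z → ¬ v b ⊆ Z → v b ⊆ Z' → ¬ v a ⊆ Z' → ((∀ x ∈ Z, x ∉ Z') ∨ v k ⊆ Z ∪ Z')))
      (Dfn.all (q := fun _ M w Z' => CF M (w k.succ) (w 0) → CF M (w k.succ) Z' →
        w a.succ ⊆ w 0 → ¬ w b.succ ⊆ w 0 → w b.succ ⊆ Z' → ¬ w a.succ ⊆ Z' →
          ((∀ x ∈ w 0, x ∉ Z') ∨ w k.succ ⊆ w 0 ∪ Z'))
      ((Dfn.cf k.succ.succ (Fin.succ 0)).imp ((Dfn.cf k.succ.succ 0).imp
        ((Dfn.sub a.succ.succ (Fin.succ 0)).imp ((Dfn.sub b.succ.succ (Fin.succ 0)).not.imp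
          ((Dfn.sub b.succ.succ 0).imp ((Dfn.sub a.succ.succ 0).not.imp
            ((Dfn.disj (Fin.succ 0) 0).or (Dfn.subUnion k.succ.succ (Fin.succ 0) 0)))))))))
  have hint : ∀ (m : ℕ) (i j l : Fin m), Dfn (n := m) (fun _ _ v => v i = v j ∩ v l) := by
    intro m i j l
    refine ((Dfn.sub i j).and ((Dfn.sub i l).and (Dfn.all
      (q := fun _ _ v X => X ⊆ v j → X ⊆ v l → X ⊆ v i)
      ((Dfn.sub 0 j.succ).imp ((Dfn.sub 0 l.succ).imp (Dfn.sub 0 i.succ)))))).congr ?_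
    intro α M v hM hv
    constructor
    · rintro ⟨h1, h2, h3⟩
      exact subset_antisymm (subset_inter h1 h2) (h3 _ (inter_subset_left.trans (hv j))
        inter_subset_left inter_subset_right)
    · intro h
      refine ⟨?_, ?_, ?_⟩
      · rw [h]; exact inter_subset_left
      · rw [h]; exact inter_subset_right
      · intro X _ h1 h2; rw [h]; exact subset_inter h1 h2
  have hmid : ∀ (m : ℕ) (k a b : Fin m), Dfn (n := m) (fun _ M v => ∀ Z, Z ⊆ M.E →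
      (CF M (v k) Z → ¬ v a ⊆ Z → ¬ v b ⊆ Z → ∃ Z₁, Z₁ ⊆ M.E ∧ (∃ Z₂, Z₂ ⊆ M.E ∧
        (CF M (v k) Z₁ ∧ CF M (v k) Z₂ ∧ v a ⊆ Z₁ ∧ ¬ v b ⊆ Z₁ ∧ v b ⊆ Z₂ ∧ ¬ v a ⊆ Z₂ ∧
          v k ⊆ Z₁ ∪ Z₂ ∧ Z = Z₁ ∩ Z₂ ∧ Modu M Z₁ Z₂ Z)))) := by
    intro m k a b
    refine Dfn.all (q := fun _ M v Z => CF M (v k) Z → ¬ v a ⊆ Z → ¬ v b ⊆ Z →
        ∃ Z₁, Z₁ ⊆ M.E ∧ (∃ Z₂, Z₂ ⊆ M.E ∧
        (CF M (v k) Z₁ ∧ CF M (v k) Z₂ ∧ v a ⊆ Z₁ ∧ ¬ v b ⊆ Z₁ ∧ v b ⊆ Z₂ ∧ ¬ v a ⊆ Z₂ ∧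
          v k ⊆ Z₁ ∪ Z₂ ∧ Z = Z₁ ∩ Z₂ ∧ Modu M Z₁ Z₂ Z)))
      ((Dfn.cf k.succ 0).imp ((Dfn.sub a.succ 0).not.imp ((Dfn.sub b.succ 0).not.imp ?_)))
    refine Dfn.ex (q := fun _ M w Z₁ => ∃ Z₂, Z₂ ⊆ M.E ∧
        (CF M (w k.succ) Z₁ ∧ CF M (w k.succ) Z₂ ∧ w a.succ ⊆ Z₁ ∧ ¬ w b.succ ⊆ Z₁ ∧
          w b.succ ⊆ Z₂ ∧ ¬ w a.succ ⊆ Z₂ ∧ w k.succ ⊆ Z₁ ∪ Z₂ ∧ w 0 = Z₁ ∩ Z₂ ∧
            Modu M Z₁ Z₂ (w 0))) ?_
    refine Dfn.ex (q := fun _ M w Z₂ =>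
        (CF M (w k.succ.succ) (w 0) ∧ CF M (w k.succ.succ) Z₂ ∧ w a.succ.succ ⊆ w 0 ∧
          ¬ w b.succ.succ ⊆ w 0 ∧
          w b.succ.succ ⊆ Z₂ ∧ ¬ w a.succ.succ ⊆ Z₂ ∧ w k.succ.succ ⊆ w 0 ∪ Z₂ ∧
          w (Fin.succ 0) = w 0 ∩ Z₂ ∧ Modu M (w 0) Z₂ (w (Fin.succ 0)))) ?_
    exact (Dfn.cf k.succ.succ.succ (Fin.succ 0)).and ((Dfn.cf k.succ.succ.succ 0).and
      ((Dfn.sub a.succ.succ.succ (Fin.succ 0)).and ((Dfn.sub b.succ.succ.succ (Fin.succ 0)).not.and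
      ((Dfn.sub b.succ.succ.succ 0).and ((Dfn.sub a.succ.succ.succ 0).not.and
      ((Dfn.subUnion k.succ.succ.succ (Fin.succ 0) 0).and
      ((hint _ (Fin.succ (Fin.succ 0)) (Fin.succ 0) 0).and
        (Dfn.modu (Fin.succ 0) 0 (Fin.succ (Fin.succ 0))))))))))
  refine (Dfn.ex (q := fun _ M v A => ∃ B, B ⊆ M.E ∧
      ((∀ Z, Z ⊆ M.E → ∀ Z', Z' ⊆ M.E → (CF M (v k) Z → CF M (v k) Z' → A ⊆ Z → A ⊆ Z' →
        ¬ B ⊆ Z → ¬ B ⊆ Z' → (Z ⊆ Z' ∨ Z' ⊆ Z))) ∧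
      (∀ Z, Z ⊆ M.E → ∀ Z', Z' ⊆ M.E → (CF M (v k) Z → CF M (v k) Z' → B ⊆ Z → B ⊆ Z' →
        ¬ A ⊆ Z → ¬ A ⊆ Z' → (Z ⊆ Z' ∨ Z' ⊆ Z))) ∧
      (∀ Z, Z ⊆ M.E → (CF M (v k) Z → A ⊆ Z → B ⊆ Z → v k ⊆ Z)) ∧
      (∀ Z, Z ⊆ M.E → ∀ Z', Z' ⊆ M.E → (CF M (v k) Z → CF M (v k) Z' → A ⊆ Z → ¬ B ⊆ Z →
        B ⊆ Z' → ¬ A ⊆ Z' → ((∀ x ∈ Z, x ∉ Z') ∨ v k ⊆ Z ∪ Z'))) ∧
      (∀ Z, Z ⊆ M.E → (CF M (v k) Z → ¬ A ⊆ Z → ¬ B ⊆ Z → ∃ Z₁, Z₁ ⊆ M.E ∧ (∃ Z₂, Z₂ ⊆ M.E ∧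
        (CF M (v k) Z₁ ∧ CF M (v k) Z₂ ∧ A ⊆ Z₁ ∧ ¬ B ⊆ Z₁ ∧ B ⊆ Z₂ ∧ ¬ A ⊆ Z₂ ∧
          v k ⊆ Z₁ ∪ Z₂ ∧ Z = Z₁ ∩ Z₂ ∧ Modu M Z₁ Z₂ Z))))))
    (Dfn.ex (q := fun _ M w B =>
      ((∀ Z, Z ⊆ M.E → ∀ Z', Z' ⊆ M.E → (CF M (w k.succ) Z → CF M (w k.succ) Z' → w 0 ⊆ Z →
        w 0 ⊆ Z' → ¬ B ⊆ Z → ¬ B ⊆ Z' → (Z ⊆ Z' ∨ Z' ⊆ Z))) ∧
      (∀ Z, Z ⊆ M.E → ∀ Z', Z' ⊆ M.E → (CF M (w k.succ) Z → CF M (w k.succ) Z' → B ⊆ Z →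
        B ⊆ Z' → ¬ w 0 ⊆ Z → ¬ w 0 ⊆ Z' → (Z ⊆ Z' ∨ Z' ⊆ Z))) ∧
      (∀ Z, Z ⊆ M.E → (CF M (w k.succ) Z → w 0 ⊆ Z → B ⊆ Z → w k.succ ⊆ Z)) ∧
      (∀ Z, Z ⊆ M.E → ∀ Z', Z' ⊆ M.E → (CF M (w k.succ) Z → CF M (w k.succ) Z' → w 0 ⊆ Z →
        ¬ B ⊆ Z → B ⊆ Z' → ¬ w 0 ⊆ Z' → ((∀ x ∈ Z, x ∉ Z') ∨ w k.succ ⊆ Z ∪ Z'))) ∧
      (∀ Z, Z ⊆ M.E → (CF M (w k.succ) Z → ¬ w 0 ⊆ Z → ¬ B ⊆ Z →
        ∃ Z₁, Z₁ ⊆ M.E ∧ (∃ Z₂, Z₂ ⊆ M.E ∧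
        (CF M (w k.succ) Z₁ ∧ CF M (w k.succ) Z₂ ∧ w 0 ⊆ Z₁ ∧ ¬ B ⊆ Z₁ ∧ B ⊆ Z₂ ∧ ¬ w 0 ⊆ Z₂ ∧
          w k.succ ⊆ Z₁ ∪ Z₂ ∧ Z = Z₁ ∩ Z₂ ∧ Modu M Z₁ Z₂ Z))))))
      ((hch _ k.succ.succ (Fin.succ 0) 0).and ((hch _ k.succ.succ 0 (Fin.succ 0)).and
        ((hboth _ k.succ.succ (Fin.succ 0) 0).and ((hcross _ k.succ.succ (Fin.succ 0) 0).and
          (hmid _ k.succ.succ (Fin.succ 0) 0))))))).congr ?_
  intro α M v hM hv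
  constructor
  · rintro ⟨A, hA, B, hB, h1, h2, h3, h4, h5⟩
    refine ⟨A, B, hA, hB, ?_, ?_, ?_, ?_, ?_⟩
    · intro Z Z' hZ hZ'
      exact h1 Z (cf_ground hZ) Z' (cf_ground hZ') hZ hZ'
    · intro Z Z' hZ hZ'
      exact h2 Z (cf_ground hZ) Z' (cf_ground hZ') hZ hZ'
    · intro Z hZ
      exact h3 Z (cf_ground hZ) hZ
    · intro Z Z' hZ hZ'
      exact h4 Z (cf_ground hZ) Z' (cf_ground hZ') hZ hZ'
    · intro Z hZ ha hb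
      obtain ⟨Z₁, _, Z₂, _, h⟩ := h5 Z (cf_ground hZ) hZ ha hb
      exact ⟨Z₁, Z₂, h⟩
  · rintro ⟨A, B, hA, hB, h1, h2, h3, h4, h5⟩
    refine ⟨A, hA, B, hB, ?_, ?_, ?_, ?_, ?_⟩
    · intro Z _ Z' _ hZ hZ'
      exact h1 Z Z' hZ hZ'
    · intro Z _ Z' _ hZ hZ'
      exact h2 Z Z' hZ hZ'
    · intro Z _ hZ
      exact h3 Z hZ
    · intro Z _ Z' _ hZ hZ'
      exact h4 Z Z' hZ hZ'
    · intro Z _ hZ ha hb
      obtain ⟨Z₁, Z₂, h⟩ := h5 Z hZ ha hb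
      exact ⟨Z₁, cf_ground h.1, Z₂, cf_ground h.2.1, h⟩

/-- the defining sentence -/
theorem exists_sentence : ∃ φ : Sentence, ∀ (α : Type) (M : Matroid α), M.Finite →
    (Models M φ ↔ IsLatticePathMatroid M) := by
  have h : Dfn (n := 0) (fun _ M _ => ∀ K, K ⊆ M.E → (Comp M K → Cond M K)) :=
    Dfn.all (q := fun _ M _ K => Comp M K → Cond M K) ((Dfn.comp 0).imp (Dfn.cond 0))
  obtain ⟨φ, hφ⟩ := h
  refine ⟨φ, fun α M hM => ?_⟩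
  rw [isLPM_iff]
  refine (hφ α M Fin.elim0 hM (fun i => i.elim0)).trans ?_
  exact ⟨fun h K hK => h K hK.1 hK, fun h K _ hK => h K hK⟩

end Pool.Agent.W307.LP
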