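import Mathlib
import Pool.Agent.Helper236.Lin

set_option autoImplicit false

namespace Pool.Agent.W307.Kung

open Set Module Submodule Pool.Agent.Helper236

/-- counting: pairwise independent vectors in a space of dimension `≤ 2`. -/
theorem ncard_le_projectivization {K V ι : Type} [Field K] [Finite K] [AddCommGroup V]
    [Module K V] [FiniteDimensional K V] (w : ι → V) (T : Set ι)
    (h0 : ∀ x ∈ T, w x ≠ 0)
    (h1 : ∀ x ∈ T, ∀ y ∈ T, ∀ c : K, w x = c • w y → x = y) :
    T.Finite ∧ T.ncard ≤ Nat.card (Projectivization K V) := by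
  have : Finite V := Module.finite_of_finite K
  have hf : Finite (Projectivization K V) := inferInstance
  let f : T → Projectivization K V := fun x => Projectivization.mk K (w x) (h0 x x.2)
  have hinj : Function.Injective f := by
    intro x y hxy
    rw [Projectivization.mk_eq_mk_iff'] at hxy
    obtain ⟨c, hc⟩ := hxy
    exact Subtype.ext (h1 x x.2 y y.2 c hc.symm)
  have hTf : Finite T := Finite.of_injective f hinj
  refine ⟨Set.toFinite T, ?_⟩
  have := Nat.card_le_card_of_injective f hinj
  rwa [Nat.card_coe_set_eq] at this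

theorem card_proj_le {K V : Type} [Field K] [Finite K] [AddCommGroup V]
    [Module K V] [FiniteDimensional K V] {d : ℕ} (h : finrank K V ≤ d) :
    Nat.card (Projectivization K V) ≤ ∑ i ∈ Finset.range d, Nat.card K ^ i := by
  rw [Projectivization.card_of_finrank K V rfl]
  apply Finset.sum_le_sum_of_subset
  intro x hx
  simp only [Finset.mem_range] at hx ⊢
  omega

/-- pairwise independent family whose span has dimension at most `d`. -/
theorem ncard_le_of_finrank_span {K V ι : Type} [Field K] [Finite K] [AddCommGroup V]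
    [Module K V] (w : ι → V) (T : Set ι) {d : ℕ}
    (hfd : FiniteDimensional K (span K (w '' T)))
    (h : finrank K (span K (w '' T)) ≤ d)
    (h0 : ∀ x ∈ T, w x ≠ 0)
    (h1 : ∀ x ∈ T, ∀ y ∈ T, ∀ c : K, w x = c • w y → x = y) :
    T.Finite ∧ T.ncard ≤ ∑ i ∈ Finset.range d, Nat.card K ^ i := by
  classical
  let w' : ι → span K (w '' T) := fun x => if hx : x ∈ T then ⟨w x, subset_span ⟨x, hx, rfl⟩⟩ else 0
  have hw' : ∀ x ∈ T, (w' x : V) = w x := by
    intro x hx
    simp [w', hx]
  have := ncard_le_projectivization (K := K) w' T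
    (by intro x hx h; apply h0 x hx; rw [← hw' x hx, h]; rfl)
    (by
      intro x hx y hy c hc
      apply h1 x hx y hy c
      rw [← hw' x hx, ← hw' y hy, hc]; rfl)
  exact ⟨this.1, this.2.trans (card_proj_le h)⟩

end Pool.Agent.W307.Kung
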