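import Mathlib
import Pool.Agent.W307.Kung1

set_option autoImplicit false

namespace Pool.Agent.W307.Kung

open Set Module Submodule Pool.Agent.Helper236

section
variable {K V ι : Type} [Field K] [AddCommGroup V] [Module K V]

theorem finrank_span_le_of_indep (w : ι → V) (T : Set ι) (hT : T.Finite) (d : ℕ)
    (h : ∀ I ⊆ T, LinearIndepOn K w I → I.ncard ≤ d) : finrank K (span K (w '' T)) ≤ d := by
  obtain ⟨I, hIT, -, hsp, hI⟩ := exists_linearIndepOn_extension (K := K)
    (linearIndepOn_empty K w) (empty_subset T)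
  have : span K (w '' T) = span K (w '' I) :=
    le_antisymm (span_le.2 hsp) (span_mono (image_mono hIT))
  rw [this, finrank_span_of_linearIndepOn hI (hT.subset hIT)]
  exact h I hIT hI

theorem ncard_le_of_linearIndepOn (w : ι → V) (T : Set ι) (hT : T.Finite) (d : ℕ)
    (S : Submodule K V) (hS : w '' T ⊆ S) [FiniteDimensional K S] (hd : finrank K S ≤ d)
    {I : Set ι} (hI : I ⊆ T) (hIi : LinearIndepOn K w I) : I.ncard ≤ d := by
  rw [← finrank_span_of_linearIndepOn hIi (hT.subset hI)]
  refine le_trans (Submodule.finrank_mono (span_le.2 ((image_mono hI).trans hS))) hd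

end

section
variable {K F : Type} [Field K] [Field F] [Algebra K F] {α : Type} {m : ℕ}

/-- the vector `(a, b)` of `F × K ^ m`, seen in `F × F ^ m`. -/
def vec (a : α → F) (b : α → Fin m → K) : α → F × (Fin m → F) :=
  fun x => (a x, fun i => algebraMap K F (b x i))

theorem functional_mem (a : α → F) (b : α → Fin m → K) (C : Set α) (z : F × (Fin m → F))
    (hz : z ∈ span F (vec a b '' C)) (π : F →ₗ[K] K) :
    (fun i => π (z.2 i)) ∈ span K (b '' C) := by
  induction hz using Submodule.span_induction generalizing π with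
  | mem z hz =>
    obtain ⟨c, hc, rfl⟩ := hz
    have : (fun i => π ((vec a b c).2 i)) = π 1 • b c := by
      funext i
      simp only [vec, Pi.smul_apply, smul_eq_mul]
      rw [Algebra.algebraMap_eq_smul_one, map_smul, smul_eq_mul, mul_comm]
    rw [this]
    exact smul_mem _ _ (subset_span ⟨c, hc, rfl⟩)
  | zero =>
    have h0 : (fun i => π ((0 : F × (Fin m → F)).2 i)) = 0 := by
      funext i
      simp
    rw [h0]
    exact zero_mem _
  | add x y _ _ hx hy =>
    have := add_mem (hx π) (hy π)
    convert this using 1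
    funext i
    simp
  | smul f x _ hx =>
    have := hx (π ∘ₗ (LinearMap.mulLeft K f))
    convert this using 1
    funext i
    simp

theorem lift_mem (a : α → F) (b : α → Fin m → K) (C : Set α) (z : Fin m → K)
    (hz : z ∈ span K (b '' C)) :
    ∃ f : F, ((f, fun i => algebraMap K F (z i)) : F × (Fin m → F)) ∈ span F (vec a b '' C) := by
  induction hz using Submodule.span_induction with
  | mem z hz =>
    obtain ⟨c, hc, rfl⟩ := hz
    exact ⟨a c, subset_span ⟨c, hc, rfl⟩⟩
  | zero =>
    refine ⟨0, ?_⟩
    have h0 : ((0, fun i => algebraMap K F ((0 : Fin m → K) i)) : F × (Fin m → F)) = 0 := by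
      ext i <;> simp
    rw [h0]
    exact zero_mem _
  | add x y _ _ hx hy =>
    obtain ⟨f, hf⟩ := hx
    obtain ⟨g, hg⟩ := hy
    refine ⟨f + g, ?_⟩
    have := add_mem hf hg
    convert this using 1
    ext i <;> simp
  | smul k x _ hx =>
    obtain ⟨f, hf⟩ := hx
    refine ⟨algebraMap K F k * f, ?_⟩
    have := smul_mem _ (algebraMap K F k) hf
    convert this using 1
    ext i <;> simp [Algebra.smul_def]

/-- F1 -/
theorem parallel_mod (a : α → F) (b : α → Fin m → K) (C : Set α) (x y : α) (c d : K)
    (h : c • (span K (b '' C)).mkQ (b x) = d • (span K (b '' C)).mkQ (b y)) :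
    ∃ f : F, algebraMap K F c • (span F (vec a b '' C)).mkQ (vec a b x)
      - algebraMap K F d • (span F (vec a b '' C)).mkQ (vec a b y)
      = f • (span F (vec a b '' C)).mkQ ((1 : F), (0 : Fin m → F)) := by
  have h1 : c • b x - d • b y ∈ span K (b '' C) := by
    rw [← Submodule.Quotient.mk_eq_zero, ← Submodule.mkQ_apply, map_sub, map_smul, map_smul, h,
      sub_self]
  obtain ⟨f, hf⟩ := lift_mem a b C _ h1
  refine ⟨algebraMap K F c * a x - algebraMap K F d * a y - f, ?_⟩
  rw [← map_smul, ← map_smul, ← map_sub, ← map_smul, ← sub_eq_zero, ← map_sub,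
    Submodule.mkQ_apply, Submodule.Quotient.mk_eq_zero]
  convert hf using 1
  ext i <;> simp [vec, Algebra.smul_def]

/-- F2 -/
theorem indep_mod [FiniteDimensional K F] (a : α → F) (b : α → Fin m → K) (C : Set α) (I : Set α)
    (hI : LinearIndepOn K ((span K (b '' C)).mkQ ∘ b) I) :
    LinearIndepOn F ((span F {(span F (vec a b '' C)).mkQ ((1 : F), (0 : Fin m → F))}).mkQ ∘
      ((span F (vec a b '' C)).mkQ ∘ vec a b)) I := by
  rw [LinearIndepOn, linearIndependent_iff'] at hI ⊢
  intro s g hg i hi
  have h1 : (span F (vec a b '' C)).mkQ (∑ j ∈ s, g j • vec a b j) ∈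
      span F {(span F (vec a b '' C)).mkQ ((1 : F), (0 : Fin m → F))} := by
    rw [← Submodule.Quotient.mk_eq_zero, ← Submodule.mkQ_apply, map_sum, map_sum, ← hg]
    refine Finset.sum_congr rfl fun j _ => ?_
    simp only [Function.comp, map_smul]
  rw [mem_span_singleton] at h1
  obtain ⟨f, hf⟩ := h1
  rw [← map_smul, ← sub_eq_zero, ← map_sub, Submodule.mkQ_apply, Submodule.Quotient.mk_eq_zero] at hf
  have hf' := neg_mem hf
  rw [neg_sub] at hf'
  by_contra hne
  rw [← Module.forall_dual_apply_eq_zero_iff K (g i)] at hne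
  push Not at hne
  obtain ⟨π, hπ⟩ := hne
  have h2 := functional_mem a b C _ hf' π
  apply hπ
  refine hI s (fun j => π (g j)) ?_ i hi
  simp only [Function.comp]
  simp only [← map_smul]
  rw [← map_sum, Submodule.mkQ_apply, Submodule.Quotient.mk_eq_zero]
  convert h2 using 1
  funext k
  simp only [Finset.sum_apply, Pi.smul_apply, smul_eq_mul, vec, Prod.snd_sub, Prod.snd_sum,
    Prod.smul_snd, Pi.sub_apply, smul_zero, Pi.zero_apply, sub_zero, map_sum]
  refine Finset.sum_congr rfl fun j _ => ?_
  rw [mul_comm (g j), ← Algebra.smul_def, map_smul, smul_eq_mul, mul_comm]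

end

end Pool.Agent.W307.Kung
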