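import Mathlib
import Pool.Agent.W307.Kung2

set_option autoImplicit false

namespace Pool.Agent.W307.Kung

open Set Module Submodule Pool.Agent.Helper236

section
variable {K F : Type} [Field K] [Field F] [Algebra K F] {α : Type} {m : ℕ}

/-- a set of vectors in the span of two vectors -/
theorem ncard_le_two_of_span {V : Type} [AddCommGroup V] [Module F V] (w : α → V) (T : Set α)
    (hT : T.Finite) (p q : V) (h : ∀ x ∈ T, w x ∈ span F {p, q}) :
    ∀ I ⊆ T, LinearIndepOn F w I → I.ncard ≤ 2 := by
  intro I hI hIi
  have hfd : FiniteDimensional F (span F {p, q}) := FiniteDimensional.span_of_finite F (by simp)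
  have hd : finrank F (span F {p, q}) ≤ 2 := by
    classical
    have := finrank_span_le_card (R := F) ({p, q} : Set V)
    refine this.trans ?_
    simp only [toFinset_insert, toFinset_singleton]
    exact Finset.card_le_two
  exact ncard_le_of_linearIndepOn w T hT 2 (span F {p, q}) (by rintro _ ⟨x, hx, rfl⟩; exact h x hx)
    hd hI hIi

theorem no_plane [Finite K] [FiniteDimensional K F] (a : α → F) (b : α → Fin m → K) (C T : Set α)
    (hT : T.Finite) (r : ℕ) (hr : Nat.card K < r) (hcard : T.ncard = r ^ 2 + r + 1)
    (hrank : ∀ I ⊆ T, LinearIndepOn F ((span F (vec a b '' C)).mkQ ∘ vec a b) I → I.ncard ≤ 3)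
    (hs1 : ∀ x ∈ T, (span F (vec a b '' C)).mkQ (vec a b x) ≠ 0)
    (hs2 : ∀ x ∈ T, ∀ y ∈ T, ∀ c : F, (span F (vec a b '' C)).mkQ (vec a b x) =
      c • (span F (vec a b '' C)).mkQ (vec a b y) → x = y)
    (hline : ∀ T' ⊆ T, (∀ I ⊆ T', LinearIndepOn F ((span F (vec a b '' C)).mkQ ∘ vec a b) I →
      I.ncard ≤ 2) → T'.ncard ≤ r + 1) : False := by
  classical
  set w := (span F (vec a b '' C)).mkQ ∘ vec a b with hw
  set u := (span K (b '' C)).mkQ ∘ b with hu
  set e' := (span F (vec a b '' C)).mkQ ((1 : F), (0 : Fin m → F)) with he'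
  set S := span F (w '' T) with hS
  have hSfd : FiniteDimensional F S := FiniteDimensional.span_of_finite F (hT.image w)
  have hS3 : finrank F S ≤ 3 := finrank_span_le_of_indep w T hT 3 hrank
  have hF1 : ∀ x y : α, ∀ c d : K, c • u x = d • u y → ∃ f : F,
      algebraMap K F c • w x - algebraMap K F d • w y = f • e' :=
    fun x y c d h => parallel_mod a b C x y c d h
  have hF2 : ∀ I : Set α, LinearIndepOn K u I → LinearIndepOn F ((span F {e'}).mkQ ∘ w) I :=
    fun I hI => indep_mod a b C I hI
  have hwS : ∀ x ∈ T, w x ∈ S := fun x hx => subset_span ⟨x, hx, rfl⟩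
  have hfdu : FiniteDimensional K (span K (u '' T)) := FiniteDimensional.span_of_finite K (hT.image u)
  by_cases hcase : e' ∈ S ∧ e' ≠ 0
  · -- Case A
    obtain ⟨heS, he0⟩ := hcase
    -- dimension of the image of `S` modulo `e'`
    have hmap : finrank F (S.map (span F {e'}).mkQ) ≤ 2 := by
      have h1 := Submodule.finrank_map_le (span F {e'}).mkQ S
      have h2 := LinearMap.finrank_range_add_finrank_ker ((span F {e'}).mkQ.domRestrict S)
      have h3 : LinearMap.range ((span F {e'}).mkQ.domRestrict S) = S.map (span F {e'}).mkQ := by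
        rw [LinearMap.domRestrict, LinearMap.range_comp, Submodule.range_subtype]
      have h4 : 0 < finrank F (LinearMap.ker ((span F {e'}).mkQ.domRestrict S)) := by
        rw [Nat.pos_iff_ne_zero]
        intro h0
        rw [Submodule.finrank_eq_zero] at h0
        have hmem : (⟨e', heS⟩ : S) ∈ LinearMap.ker ((span F {e'}).mkQ.domRestrict S) := by
          rw [LinearMap.mem_ker, LinearMap.domRestrict_apply, Submodule.mkQ_apply,
            Submodule.Quotient.mk_eq_zero]
          exact subset_span rfl
        rw [h0, Submodule.mem_bot] at hmem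
        exact he0 (congrArg Subtype.val hmem)
      rw [h3] at h2
      omega
    have hurank : finrank K (span K (u '' T)) ≤ 2 := by
      refine finrank_span_le_of_indep u T hT 2 fun I hI hIi => ?_
      have h1 := hF2 I hIi
      have : FiniteDimensional F (S.map (span F {e'}).mkQ) := inferInstance
      refine ncard_le_of_linearIndepOn ((span F {e'}).mkQ ∘ w) T hT 2 (S.map (span F {e'}).mkQ)
        ?_ hmap hI h1
      rintro _ ⟨x, hx, rfl⟩
      exact ⟨w x, hwS x hx, rfl⟩
    -- the elements with `u x = 0`
    set Z : Set α := {x ∈ T | u x = 0} with hZ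
    have hZe : ∀ x ∈ Z, ∃ f : F, w x = f • e' := by
      intro x hx
      obtain ⟨f, hf⟩ := hF1 x x 1 0 (by rw [hx.2]; simp)
      exact ⟨f, by simpa using hf⟩
    have hZsub : ∀ x ∈ Z, ∀ y ∈ Z, x = y := by
      intro x hx y hy
      obtain ⟨f, hf⟩ := hZe x hx
      obtain ⟨g, hg⟩ := hZe y hy
      have hg0 : g ≠ 0 := by
        rintro rfl
        rw [zero_smul] at hg
        exact hs1 y hy.1 hg
      apply hs2 x hx.1 y hy.1 (f * g⁻¹)
      change w x = (f * g⁻¹) • w y
      rw [hf, hg, smul_smul, mul_assoc, inv_mul_cancel₀ hg0, mul_one]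
    have hZfin : Z.Finite := hT.subset (fun x hx => hx.1)
    have hZ1 : Z.ncard ≤ 1 := by
      rw [Set.ncard_le_one hZfin]
      exact fun x hx y hy => hZsub x hx y hy
    -- classes
    have hclass : ∀ x₀ ∈ T, u x₀ ≠ 0 →
        ({x ∈ T | u x ∈ span K {u x₀}}).ncard ≤ r + 1 := by
      intro x₀ hx₀ hu0
      have hsub : {x ∈ T | u x ∈ span K {u x₀}} ⊆ T := fun x hx => hx.1
      refine hline _ hsub ?_
      refine ncard_le_two_of_span w _ (hT.subset hsub) (w x₀) e' ?_
      rintro x ⟨hxT, hx⟩
      obtain ⟨d, hd⟩ := mem_span_singleton.1 hx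
      obtain ⟨f, hf⟩ := hF1 x x₀ 1 d (by rw [one_smul, hd])
      rw [map_one, one_smul, sub_eq_iff_eq_add] at hf
      rw [hf]
      exact add_mem (smul_mem _ _ (subset_span (by simp))) (smul_mem _ _ (subset_span (by simp)))
    -- the class map
    let uu : α → span K (u '' T) := fun x => if hx : x ∈ T then ⟨u x, subset_span ⟨x, hx, rfl⟩⟩ else 0
    have huu : ∀ x ∈ T, (uu x : _) = u x := by
      intro x hx
      simp [uu, hx]
    let T0 : Finset α := (hT.subset (fun x (hx : x ∈ T \ Z) => hx.1)).toFinset
    have hT0 : ∀ x, x ∈ T0 ↔ x ∈ T ∧ x ∉ Z := by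
      intro x
      simp [T0]
    have hFinV : Finite (span K (u '' T)) := Module.finite_of_finite K
    have hfinP : Finite (Projectivization K (span K (u '' T))) := inferInstance
    have := Fintype.ofFinite (Projectivization K (span K (u '' T)))
    have hne : ∀ x ∈ T0, uu x ≠ 0 := by
      intro x hx h
      obtain ⟨h1, h2⟩ := (hT0 x).1 hx
      apply h2
      refine ⟨h1, ?_⟩
      rw [← huu x h1, h]
      rfl
    have hrpos : 0 < r := by omega
    -- a point to use as default
    have hP : Nat.card (Projectivization K (span K (u '' T))) ≤ Nat.card K + 1 := by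
      refine (card_proj_le hurank).trans ?_
      simp [Finset.sum_range_succ]
      omega
    by_cases hT0e : T0.Nonempty
    swap
    · -- everything is in `Z`
      have : T ⊆ Z := by
        intro x hx
        by_contra hxZ
        exact hT0e ⟨x, (hT0 x).2 ⟨hx, hxZ⟩⟩
      have h1 := Set.ncard_le_ncard this hZfin
      nlinarith
    obtain ⟨x1, hx1⟩ := hT0e
    let f : α → Projectivization K (span K (u '' T)) := fun x =>
      if hx : uu x ≠ 0 then Projectivization.mk K (uu x) hx
      else Projectivization.mk K (uu x1) (hne x1 hx1)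
    have hfib : ∀ p : Projectivization K (span K (u '' T)),
        (T0.filter (fun x => f x = p)).card ≤ r + 1 - Z.ncard := by
      intro p
      by_cases hemp : (T0.filter (fun x => f x = p)).Nonempty
      swap
      · rw [Finset.not_nonempty_iff_eq_empty] at hemp
        rw [hemp]
        simp
      obtain ⟨x₀, hx₀⟩ := hemp
      rw [Finset.mem_filter] at hx₀
      obtain ⟨hx₀T0, hx₀p⟩ := hx₀
      obtain ⟨hx₀T, hx₀Z⟩ := (hT0 x₀).1 hx₀T0
      have hu0 : u x₀ ≠ 0 := fun h => hx₀Z ⟨hx₀T, h⟩
      have h1 := hclass x₀ hx₀T hu0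
      have hsub : ((T0.filter (fun x => f x = p) : Finset α) : Set α) ∪ Z ⊆
          {x ∈ T | u x ∈ span K {u x₀}} := by
        rintro x (hx | hx)
        · rw [Finset.mem_coe, Finset.mem_filter] at hx
          obtain ⟨hxT0, hxp⟩ := hx
          obtain ⟨hxT, hxZ⟩ := (hT0 x).1 hxT0
          refine ⟨hxT, ?_⟩
          have h2 : f x = f x₀ := by rw [hxp, hx₀p]
          simp only [f] at h2
          rw [dif_pos (hne x hxT0), dif_pos (hne x₀ hx₀T0), Projectivization.mk_eq_mk_iff'] at h2
          obtain ⟨c, hc⟩ := h2
          rw [mem_span_singleton]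
          refine ⟨c, ?_⟩
          rw [← huu x hxT, ← huu x₀ hx₀T, ← hc]
          rfl
        · exact ⟨hx.1, by rw [hx.2]; exact zero_mem _⟩
      have h2 := Set.ncard_le_ncard hsub (hT.subset fun x hx => hx.1)
      rw [Set.ncard_union_eq ?_ (Finset.finite_toSet _) hZfin, Set.ncard_coe_finset] at h2
      · omega
      · rw [Set.disjoint_left]
        intro x hx hxZ
        rw [Finset.mem_coe, Finset.mem_filter] at hx
        exact ((hT0 x).1 hx.1).2 hxZ
    have htot := Finset.card_le_mul_card_image_of_maps_to (f := f) (s := T0) (t := Finset.univ)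
      (fun _ _ => Finset.mem_univ _) (r + 1 - Z.ncard) (fun p _ => hfib p)
    rw [Finset.card_univ, ← Nat.card_eq_fintype_card] at htot
    have hTZ : T.ncard = T0.card + Z.ncard := by
      have : T = (T0 : Set α) ∪ Z := by
        ext x
        rw [Set.mem_union, Finset.mem_coe, hT0]
        constructor
        · intro hx
          by_cases hxZ : x ∈ Z
          · exact Or.inr hxZ
          · exact Or.inl ⟨hx, hxZ⟩
        · rintro (h | h)
          · exact h.1
          · exact h.1
      rw [this, Set.ncard_union_eq ?_ (Finset.finite_toSet _) hZfin, Set.ncard_coe_finset]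
      rw [Set.disjoint_left]
      intro x hx hxZ
      rw [Finset.mem_coe] at hx
      exact ((hT0 x).1 hx).2 hxZ
    have h5 : (r + 1 - Z.ncard) * Nat.card (Projectivization K (span K (u '' T))) ≤
        (r + 1 - Z.ncard) * r := Nat.mul_le_mul_left _ (by omega)
    rcases Nat.lt_or_ge 0 Z.ncard with h6 | h6
    · have h7 : Z.ncard = 1 := by omega
      rw [h7] at h5 hTZ htot
      have : r + 1 - 1 = r := by omega
      rw [this] at h5 htot
      nlinarith
    · have h7 : Z.ncard = 0 := by omega
      rw [h7] at h5 hTZ htot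
      have : r + 1 - 0 = r + 1 := by omega
      rw [this] at h5 htot
      nlinarith
  · -- Case B
    have hbot : ∀ f : F, f • e' ∈ S → f • e' = 0 := by
      intro f hf
      by_cases hf0 : f = 0
      · rw [hf0, zero_smul]
      · have : e' ∈ S := by
          have := S.smul_mem f⁻¹ hf
          rwa [smul_smul, inv_mul_cancel₀ hf0, one_smul] at this
        have h0 : e' = 0 := by
          by_contra h
          exact hcase ⟨this, h⟩
        rw [h0, smul_zero]
    have hurank : finrank K (span K (u '' T)) ≤ 3 := by
      refine finrank_span_le_of_indep u T hT 3 fun I hI hIi => ?_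
      have h1 := (hF2 I hIi).of_comp
      exact hrank I hI h1
    have h := ncard_le_of_finrank_span (K := K) u T hfdu hurank ?_ ?_
    · have h1 := h.2
      rw [hcard] at h1
      simp [Finset.sum_range_succ] at h1
      nlinarith
    · intro x hx h0
      obtain ⟨f, hf⟩ := hF1 x x 1 0 (by rw [h0]; simp)
      have hf' : w x = f • e' := by simpa using hf
      apply hs1 x hx
      change w x = 0
      rw [hf']
      apply hbot
      rw [← hf']
      exact hwS x hx
    · intro x hx y hy c hc
      obtain ⟨f, hf⟩ := hF1 x y 1 c (by rw [one_smul, hc])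
      rw [map_one, one_smul] at hf
      apply hs2 x hx y hy (algebraMap K F c)
      change w x = _ • w y
      rw [← sub_eq_zero, hf]
      apply hbot
      rw [← hf]
      exact sub_mem (hwS x hx) (smul_mem _ _ (hwS y hy))

end

end Pool.Agent.W307.Kung
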