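import Mathlib

set_option autoImplicit false

namespace Pool.Agent.W307.LP

open Set

variable {α : Type}

/-- the rank of a set in a finite matroid, as a natural number -/
noncomputable def rk (M : Matroid α) (X : Set α) : ℕ := (M.eRk X).toNat

section
variable (M : Matroid α) [M.Finite]

lemma coe_rk (X : Set α) : ((rk M X : ℕ) : ℕ∞) = M.eRk X := by
  unfold rk
  apply ENat.natCast_toNat
  have h1 : M.eRk X ≤ M.eRank := M.eRk_le_eRank X
  have h2 : M.eRank < ⊤ := M.eRank_lt_top_iff.2 inferInstance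
  exact (lt_of_le_of_lt h1 h2).ne

variable {M}

lemma rk_mono {X Y : Set α} (h : X ⊆ Y) : rk M X ≤ rk M Y := by
  have := M.eRk_mono h
  rw [← coe_rk M X, ← coe_rk M Y] at this
  exact_mod_cast this

lemma rk_submod (X Y : Set α) : rk M (X ∩ Y) + rk M (X ∪ Y) ≤ rk M X + rk M Y := by
  have := M.eRk_inter_add_eRk_union_le X Y
  rw [← coe_rk M X, ← coe_rk M Y, ← coe_rk M (X ∩ Y), ← coe_rk M (X ∪ Y)] at this
  exact_mod_cast this

lemma rk_closure (X : Set α) : rk M (M.closure X) = rk M X := by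
  unfold rk; rw [Matroid.eRk_closure_eq]

lemma indep_finite {I : Set α} (hI : M.Indep I) : I.Finite := M.set_finite I hI.subset_ground

lemma indep_rk {I : Set α} (hI : M.Indep I) : rk M I = I.ncard := by
  have h := hI.eRk_eq_encard
  rw [← coe_rk, ← (indep_finite hI).cast_ncard_eq] at h
  exact_mod_cast h

lemma indep_le {I X : Set α} (hI : M.Indep I) (h : I ⊆ X) : I.ncard ≤ rk M X := by
  rw [← indep_rk hI]; exact rk_mono h

lemma basis_ncard {I X : Set α} (hI : M.IsBasis I X) : I.ncard = rk M X := by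
  rw [← indep_rk hI.indep, ← rk_closure I, hI.closure_eq_closure, rk_closure]

lemma rk_le_ncard {X : Set α} (hX : X ⊆ M.E) : rk M X ≤ X.ncard := by
  obtain ⟨I, hI⟩ := M.exists_isBasis X hX
  rw [← basis_ncard hI]
  exact ncard_le_ncard hI.subset (M.set_finite X hX)

lemma indep_of_ncard_le {X : Set α} (hX : X ⊆ M.E) (h : X.ncard ≤ rk M X) : M.Indep X := by
  obtain ⟨I, hI⟩ := M.exists_isBasis X hX
  rw [← basis_ncard hI] at h
  have := eq_of_subset_of_ncard_le hI.subset h (M.set_finite X hX)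
  rw [← this]; exact hI.indep

lemma subset_closure_of_rk {X Y : Set α} (hXY : X ⊆ Y) (hY : Y ⊆ M.E) (h : rk M Y ≤ rk M X) :
    Y ⊆ M.closure X := by
  obtain ⟨I, hI⟩ := M.exists_isBasis X (hXY.trans hY)
  obtain ⟨J, hJ, hIJ⟩ := hI.indep.subset_isBasis_of_subset (hI.subset.trans hXY) hY
  have h1 : J.ncard ≤ I.ncard := by rw [basis_ncard hI, basis_ncard hJ]; exact h
  have h2 : I = J := eq_of_subset_of_ncard_le hIJ h1 (indep_finite hJ.indep)
  subst h2
  rw [← hI.closure_eq_closure]
  exact hJ.subset_closure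

lemma rk_eq_of_subset_closure {X Y : Set α} (hXY : X ⊆ Y) (h : Y ⊆ M.closure X) :
    rk M X = rk M Y := by
  refine le_antisymm (rk_mono hXY) ?_
  calc rk M Y ≤ rk M (M.closure X) := rk_mono h
    _ = rk M X := rk_closure X

lemma closure_eq_of_rk {X Y : Set α} (hXY : X ⊆ Y) (hY : Y ⊆ M.E) (h : rk M Y ≤ rk M X) :
    M.closure X = M.closure Y := by
  apply subset_antisymm (M.closure_subset_closure hXY)
  exact M.closure_subset_closure_of_subset_closure (subset_closure_of_rk hXY hY h)

lemma circuit_finite {C : Set α} (hC : M.IsCircuit C) : C.Finite := M.set_finite C hC.subset_ground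

lemma circuit_ncard {C : Set α} (hC : M.IsCircuit C) : C.ncard = rk M C + 1 := by
  obtain ⟨e, he⟩ := hC.nonempty
  have h1 := hC.sdiff_singleton_isBasis he
  rw [← basis_ncard h1, ncard_sdiff_singleton_add_one he (circuit_finite hC)]

/-- separators: every circuit is inside or disjoint -/
def Sep (M : Matroid α) (K : Set α) : Prop := ∀ C, M.IsCircuit C → C ⊆ K ∨ ∀ x ∈ C, x ∉ K

lemma Sep.rk_union {K X Y : Set α} (hK : Sep M K) (hX : X ⊆ K) (hXE : X ⊆ M.E) (hYE : Y ⊆ M.E)
    (hY : ∀ y ∈ Y, y ∉ K) : rk M (X ∪ Y) = rk M X + rk M Y := by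
  obtain ⟨I, hI⟩ := M.exists_isBasis X hXE
  obtain ⟨J, hJ⟩ := M.exists_isBasis Y hYE
  have hdis : Disjoint I J := by
    rw [Set.disjoint_left]
    intro x hx hx'
    exact hY x (hJ.subset hx') (hX (hI.subset hx))
  have hind : M.Indep (I ∪ J) := by
    rw [Matroid.indep_iff_forall_subset_not_isCircuit (union_subset hI.indep.subset_ground hJ.indep.subset_ground)]
    intro C hC hCc
    rcases hK C hCc with h | h
    · have : C ⊆ I := by
        intro x hx
        rcases hC hx with h1 | h1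
        · exact h1
        · exact absurd (h hx) (hY x (hJ.subset h1))
      exact hCc.not_indep (hI.indep.subset this)
    · have : C ⊆ J := by
        intro x hx
        rcases hC hx with h1 | h1
        · exact absurd (hX (hI.subset h1)) (h x hx)
        · exact h1
      exact hCc.not_indep (hJ.indep.subset this)
  have h1 : rk M I + rk M J ≤ rk M (X ∪ Y) := by
    rw [indep_rk hI.indep, indep_rk hJ.indep,
      ← ncard_union_eq hdis (indep_finite hI.indep) (indep_finite hJ.indep)]
    exact indep_le hind (union_subset_union hI.subset hJ.subset)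
  have h2 : rk M I = rk M X := by rw [indep_rk hI.indep, basis_ncard hI]
  have h3 : rk M J = rk M Y := by rw [indep_rk hJ.indep, basis_ncard hJ]
  have h4 := rk_submod (M := M) X Y
  omega

/-- a partition with additive rank gives a separator of the union -/
lemma split_of_rk {I J C : Set α} (hI : I ⊆ M.E) (hJ : J ⊆ M.E) (hIJ : ∀ x ∈ I, x ∉ J)
    (h : rk M I + rk M J ≤ rk M (I ∪ J)) (hC : M.IsCircuit C) (hCs : C ⊆ I ∪ J) :
    C ⊆ I ∨ C ⊆ J := by
  by_contra hcon
  push Not at hcon
  obtain ⟨h1, h2⟩ := hcon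
  have hCI : M.Indep (C ∩ I) := hC.ssubset_indep
    ⟨inter_subset_left, fun hh => h1 (fun x hx => (hh hx).2)⟩
  have hCJ : M.Indep (C ∩ J) := hC.ssubset_indep
    ⟨inter_subset_left, fun hh => h2 (fun x hx => (hh hx).2)⟩
  have hC2 : C = (C ∩ I) ∪ (C ∩ J) := by
    rw [← inter_union_distrib_left, inter_eq_left.2 hCs]
  have hdis : Disjoint (C ∩ I) (C ∩ J) := by
    rw [Set.disjoint_left]; rintro x ⟨_, hx⟩ ⟨_, hx'⟩; exact hIJ x hx hx'
  have hcard : C.ncard = (C ∩ I).ncard + (C ∩ J).ncard := by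
    conv_lhs => rw [hC2]
    exact ncard_union_eq hdis (indep_finite hCI) (indep_finite hCJ)
  have e1 := rk_submod (M := M) C I
  have e2 := rk_submod (M := M) (C ∪ I) J
  have e3 : rk M (I ∪ J) ≤ rk M (C ∪ I ∪ J) := rk_mono (by
    intro x hx; rcases hx with hx | hx
    · exact Or.inl (Or.inr hx)
    · exact Or.inr hx)
  have e4 : rk M (C ∩ J) ≤ rk M ((C ∪ I) ∩ J) := rk_mono (by
    rintro x ⟨hx, hx'⟩; exact ⟨Or.inl hx, hx'⟩)
  have e5 := indep_rk hCI
  have e6 := indep_rk hCJ
  have e7 := circuit_ncard hC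
  omega

end

end Pool.Agent.W307.LP
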