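import Pool.Agent.W307.LP1

set_option autoImplicit false

namespace Pool.Agent.W307.LP

open Set

variable {α : Type}

/-- elements of `K` before `s` -/
def lo (K : Set α) (t : α → ℤ) (s : ℤ) : Set α := {x | x ∈ K ∧ t x < s}

/-- elements of `K` from `u` on -/
def hi (K : Set α) (t : α → ℤ) (u : ℤ) : Set α := {x | x ∈ K ∧ u ≤ t x}

/-- `t` is a lattice path order on `K` -/
def OrdOn (M : Matroid α) (K : Set α) (t : α → ℤ) : Prop :=
  InjOn t K ∧ ∀ C, M.IsCircuit C → C ⊆ K → ∃ u s : ℤ, (∀ x ∈ C, u ≤ t x ∧ t x < s) ∧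
    rk M C + rk M K = rk M (lo K t s) + rk M (hi K t u)

/-- connected components: minimal nonempty separators -/
def Comp (M : Matroid α) (K : Set α) : Prop :=
  K ⊆ M.E ∧ K.Nonempty ∧ Sep M K ∧ ∀ L, L ⊆ K → L.Nonempty → Sep M L → K ⊆ L

/-- closures of circuits inside `K` -/
def CF (M : Matroid α) (K Z : Set α) : Prop := ∃ C, M.IsCircuit C ∧ C ⊆ K ∧ Z = M.closure C ∩ K

lemma lo_sub (K : Set α) (t : α → ℤ) (s : ℤ) : lo K t s ⊆ K := fun _ h => h.1
lemma hi_sub (K : Set α) (t : α → ℤ) (s : ℤ) : hi K t s ⊆ K := fun _ h => h.1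

lemma lo_mono {K : Set α} {t : α → ℤ} {s s' : ℤ} (h : s ≤ s') : lo K t s ⊆ lo K t s' :=
  fun _ hx => ⟨hx.1, lt_of_lt_of_le hx.2 h⟩

lemma lo_union_hi {K : Set α} {t : α → ℤ} {u s : ℤ} (h : u ≤ s) : lo K t s ∪ hi K t u = K := by
  ext x
  simp only [lo, hi, mem_union, mem_ofPred_eq]
  constructor
  · rintro (h | h) <;> exact h.1
  · intro hx
    rcases lt_or_ge (t x) s with h1 | h1
    · exact Or.inl ⟨hx, h1⟩
    · exact Or.inr ⟨hx, h.trans h1⟩

lemma lo_neg (K : Set α) (t : α → ℤ) (s : ℤ) : lo K (fun x => - t x) s = hi K t (1 - s) := by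
  ext x; simp only [lo, hi, mem_ofPred_eq]; constructor <;> rintro ⟨h1, h2⟩ <;> exact ⟨h1, by omega⟩

lemma hi_neg (K : Set α) (t : α → ℤ) (s : ℤ) : hi K (fun x => - t x) s = lo K t (1 - s) := by
  ext x; simp only [lo, hi, mem_ofPred_eq]; constructor <;> rintro ⟨h1, h2⟩ <;> exact ⟨h1, by omega⟩

lemma OrdOn.neg {M : Matroid α} {K : Set α} {t : α → ℤ} (h : OrdOn M K t) :
    OrdOn M K (fun x => - t x) := by
  refine ⟨fun x hx y hy hxy => h.1 hx hy (by simpa using hxy), ?_⟩
  intro C hC hCK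
  obtain ⟨u, s, h1, h2⟩ := h.2 C hC hCK
  refine ⟨1 - s, 1 - u, ?_, ?_⟩
  · intro x hx
    have := h1 x hx
    constructor
    · show 1 - s ≤ - t x
      omega
    · show - t x < 1 - u
      omega
  · rw [lo_neg, hi_neg]
    have e1 : (1 : ℤ) - (1 - u) = u := by ring
    have e2 : (1 : ℤ) - (1 - s) = s := by ring
    rw [e1, e2, h2, add_comm]

/-- down-sets of `K` -/
def Down (K : Set α) (t : α → ℤ) (F : Set α) : Prop := ∀ x ∈ F, ∀ y ∈ K, t y ≤ t x → y ∈ F

section
variable {M : Matroid α} [M.Finite] {K : Set α} {t : α → ℤ}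

/-- everything between the two cuts is spanned by the circuit -/
lemma between (hKE : K ⊆ M.E) {C : Set α} (hC : M.IsCircuit C) (hCK : C ⊆ K) {u s : ℤ}
    (h1 : ∀ x ∈ C, u ≤ t x ∧ t x < s)
    (h2 : rk M C + rk M K = rk M (lo K t s) + rk M (hi K t u)) :
    lo K t s ∩ hi K t u ⊆ M.closure C := by
  obtain ⟨c, hc⟩ := hC.nonempty
  have hus : u ≤ s := by have := h1 c hc; omega
  have e1 := rk_submod (M := M) (lo K t s) (hi K t u)
  rw [lo_union_hi hus] at e1
  apply subset_closure_of_rk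
  · intro x hx
    exact ⟨⟨hCK hx, (h1 x hx).2⟩, ⟨hCK hx, (h1 x hx).1⟩⟩
  · intro x hx; exact hKE hx.1.1
  · omega

lemma down_closure (hK : Comp M K) (ht : OrdOn M K t) (s : ℤ) :
    Down K t (M.closure (lo K t s) ∩ K) := by
  obtain ⟨hKE, hKn, hKs, hKm⟩ := hK
  rintro x ⟨hx, hxK⟩ y hyK hyx
  refine ⟨?_, hyK⟩
  have hloE : lo K t s ⊆ M.E := (lo_sub K t s).trans hKE
  by_cases hy : t y < s
  · exact M.mem_closure_of_mem ⟨hyK, hy⟩ hloE
  push Not at hy
  have hxlo : x ∉ lo K t s := fun h => by have := h.2; omega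
  obtain ⟨C', hC's, hC', hxC'⟩ := Matroid.exists_isCircuit_of_mem_closure hx hxlo
  have hC'K : C' ⊆ K := hC's.trans (insert_subset hxK (lo_sub K t s))
  by_cases hex : ∃ z ∈ C', z ≠ x
  · obtain ⟨z, hz, hzx⟩ := hex
    have hzlo : z ∈ lo K t s := by
      rcases hC's hz with h | h
      · exact absurd h hzx
      · exact h
    obtain ⟨u', s', h1, h2⟩ := ht.2 C' hC' hC'K
    have hb := between hKE hC' hC'K h1 h2
    have hyb : y ∈ lo K t s' ∩ hi K t u' := by
      refine ⟨⟨hyK, ?_⟩, ⟨hyK, ?_⟩⟩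
      · have := (h1 x hxC').2; omega
      · have := (h1 z hz).1; have := hzlo.2; omega
    have h3 := hb hyb
    have h4 : M.closure C' ⊆ M.closure (insert x (lo K t s)) := M.closure_subset_closure hC's
    rw [Matroid.closure_insert_eq_of_mem_closure hx] at h4
    exact h4 h3
  · push Not at hex
    have hC'x : C' = {x} := by
      apply subset_antisymm
      · intro z hz; exact hex z hz
      · intro z hz; rw [mem_singleton_iff.1 hz]; exact hxC'
    subst hC'x
    have hsep : Sep M {x} := by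
      intro C hC
      by_cases hxC : x ∈ C
      · left
        have := hC'.eq_of_subset_isCircuit hC (singleton_subset_iff.2 hxC)
        rw [← this]
      · right
        intro z hz hzx
        rw [mem_singleton_iff.1 hzx] at hz
        exact hxC hz
    have := hKm {x} (singleton_subset_iff.2 hxK) (singleton_nonempty x) hsep hyK
    rw [mem_singleton_iff.1 this]
    exact hx

/-- closure of a circuit as the intersection of a closure of an initial and of a final segment -/
lemma closure_circuit (hKE : K ⊆ M.E) {C : Set α} (hC : M.IsCircuit C) (hCK : C ⊆ K) {u s : ℤ}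
    (h1 : ∀ x ∈ C, u ≤ t x ∧ t x < s)
    (h2 : rk M C + rk M K = rk M (lo K t s) + rk M (hi K t u)) :
    M.closure C ∩ K = (M.closure (lo K t s) ∩ K) ∩ (M.closure (hi K t u) ∩ K) ∧
    rk M (M.closure (lo K t s) ∩ K) + rk M (M.closure (hi K t u) ∩ K) =
      rk M ((M.closure (lo K t s) ∩ K) ∩ (M.closure (hi K t u) ∩ K)) + rk M K := by
  have hloE : lo K t s ⊆ M.E := (lo_sub K t s).trans hKE
  have hhiE : hi K t u ⊆ M.E := (hi_sub K t u).trans hKE
  have hlo : C ⊆ lo K t s := fun x hx => ⟨hCK hx, (h1 x hx).2⟩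
  have hhi : C ⊆ hi K t u := fun x hx => ⟨hCK hx, (h1 x hx).1⟩
  obtain ⟨c, hc⟩ := hC.nonempty
  have hus : u ≤ s := by have := h1 c hc; omega
  set F := M.closure (lo K t s) ∩ K with hF
  set G := M.closure (hi K t u) ∩ K with hG
  have hloF : lo K t s ⊆ F := subset_inter (M.subset_closure _ hloE) (lo_sub K t s)
  have hhiG : hi K t u ⊆ G := subset_inter (M.subset_closure _ hhiE) (hi_sub K t u)
  have rF : rk M F = rk M (lo K t s) := (rk_eq_of_subset_closure hloF inter_subset_left).symm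
  have rG : rk M G = rk M (hi K t u) := (rk_eq_of_subset_closure hhiG inter_subset_left).symm
  have hFG : F ∪ G = K := by
    apply subset_antisymm (union_subset inter_subset_right inter_subset_right)
    rw [← lo_union_hi (K := K) (t := t) hus]
    exact union_subset_union (hloF.trans (by rw [lo_union_hi hus])) (hhiG.trans (by rw [lo_union_hi hus]))
  have hsub := rk_submod (M := M) F G
  rw [hFG] at hsub
  have hCFG : C ⊆ F ∩ G := subset_inter (hlo.trans hloF) (hhi.trans hhiG)
  have hmon : rk M C ≤ rk M (F ∩ G) := rk_mono hCFG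
  have hcl : F ∩ G ⊆ M.closure C := by
    apply subset_closure_of_rk hCFG
    · intro x hx; exact hKE hx.1.2
    · omega
  refine ⟨?_, by omega⟩
  apply subset_antisymm
  · rintro x ⟨hx, hxK⟩
    exact ⟨⟨M.closure_subset_closure hlo hx, hxK⟩, ⟨M.closure_subset_closure hhi hx, hxK⟩⟩
  · intro x hx
    exact ⟨hcl hx, hx.1.2⟩

/-- in a component no cut is additive -/
lemma comp_cut (hK : Comp M K) {I J : Set α} (hIJ : I ∪ J = K) (hdis : ∀ x ∈ I, x ∉ J)
    (hI : I.Nonempty) (hJ : J.Nonempty) : rk M K < rk M I + rk M J := by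
  obtain ⟨hKE, hKn, hKs, hKm⟩ := hK
  by_contra hcon
  push Not at hcon
  have hIK : I ⊆ K := by rw [← hIJ]; exact subset_union_left
  have hJK : J ⊆ K := by rw [← hIJ]; exact subset_union_right
  have hsep : Sep M I := by
    intro C hC
    rcases hKs C hC with h | h
    · rcases split_of_rk (hIK.trans hKE) (hJK.trans hKE) hdis (by rw [hIJ]; exact hcon) hC
        (by rw [hIJ]; exact h) with h1 | h1
      · exact Or.inl h1
      · exact Or.inr (fun x hx hxI => hdis x hxI (h1 hx))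
    · exact Or.inr (fun x hx hxI => h x hx (hIK hxI))
  obtain ⟨j, hj⟩ := hJ
  exact hdis j (hKm I hIK hI hsep (hJK hj)) hj

end

end Pool.Agent.W307.LP
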