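import Pool.Agent.W307.LP2

set_option autoImplicit false

namespace Pool.Agent.W307.LP

open Set

variable {α : Type}

/-- the greedy set of `K` in the order `t` -/
def greedy (M : Matroid α) (K : Set α) (t : α → ℤ) : Set α :=
  {x | x ∈ K ∧ x ∉ M.closure (lo K t (t x))}

/-- modular triple: a common basis of three sets -/
def Modu (M : Matroid α) (Z₁ Z₂ Z : Set α) : Prop :=
  ∃ B I₁ I₂ I₀ : Set α, M.Indep B ∧ I₁ ⊆ B ∧ I₁ ⊆ Z₁ ∧ Z₁ ⊆ M.closure I₁ ∧
    I₂ ⊆ B ∧ I₂ ⊆ Z₂ ∧ Z₂ ⊆ M.closure I₂ ∧ I₀ ⊆ B ∧ I₀ ⊆ Z ∧ Z ⊆ M.closure I₀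

/-- the condition on a component -/
def Cond (M : Matroid α) (K : Set α) : Prop :=
  ∃ A B : Set α, A ⊆ M.E ∧ B ⊆ M.E ∧
    (∀ Z Z', CF M K Z → CF M K Z' → A ⊆ Z → A ⊆ Z' → ¬ B ⊆ Z → ¬ B ⊆ Z' → Z ⊆ Z' ∨ Z' ⊆ Z) ∧
    (∀ Z Z', CF M K Z → CF M K Z' → B ⊆ Z → B ⊆ Z' → ¬ A ⊆ Z → ¬ A ⊆ Z' → Z ⊆ Z' ∨ Z' ⊆ Z) ∧
    (∀ Z, CF M K Z → A ⊆ Z → B ⊆ Z → K ⊆ Z) ∧
    (∀ Z Z', CF M K Z → CF M K Z' → A ⊆ Z → ¬ B ⊆ Z → B ⊆ Z' → ¬ A ⊆ Z' →
      (∀ x ∈ Z, x ∉ Z') ∨ K ⊆ Z ∪ Z') ∧
    (∀ Z, CF M K Z → ¬ A ⊆ Z → ¬ B ⊆ Z → ∃ Z₁ Z₂, CF M K Z₁ ∧ CF M K Z₂ ∧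
      A ⊆ Z₁ ∧ ¬ B ⊆ Z₁ ∧ B ⊆ Z₂ ∧ ¬ A ⊆ Z₂ ∧ K ⊆ Z₁ ∪ Z₂ ∧ Z = Z₁ ∩ Z₂ ∧ Modu M Z₁ Z₂ Z)

section
variable {M : Matroid α} [M.Finite] {K : Set α} {t : α → ℤ}

lemma greedy_basis_aux (hKE : K ⊆ M.E) (htK : InjOn t K) (n : ℕ) :
    ∀ X : Set α, X ⊆ K → X.ncard = n → Down K t X →
      M.IsBasis {x | x ∈ X ∧ x ∉ M.closure (lo K t (t x))} X := by
  induction n with
  | zero =>
    intro X hX hcard _
    have hXf : X.Finite := M.set_finite X (hX.trans hKE)
    have : X = ∅ := (ncard_eq_zero hXf).1 hcard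
    subst this
    have e : {x : α | x ∈ (∅ : Set α) ∧ x ∉ M.closure (lo K t (t x))} = ∅ := by
      ext x; simp
    rw [e]
    exact M.empty_indep.isBasis_self
  | succ n ih =>
    intro X hX hcard hdown
    have hXE : X ⊆ M.E := hX.trans hKE
    have hXf : X.Finite := M.set_finite X hXE
    have hne : X.Nonempty := by
      rw [← ncard_pos hXf]; omega
    obtain ⟨m, hm, hmax⟩ := exists_max_image X t hXf hne
    have hlo : X \ {m} = lo K t (t m) := by
      ext x
      constructor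
      · rintro ⟨hx, hxm⟩
        refine ⟨hX hx, lt_of_le_of_ne (hmax x hx) ?_⟩
        intro h
        exact hxm (htK (hX hx) (hX hm) h)
      · rintro ⟨hxK, hx⟩
        refine ⟨hdown m hm x hxK hx.le, ?_⟩
        intro h
        rw [mem_singleton_iff.1 h] at hx
        exact lt_irrefl _ hx
    have hd' : Down K t (X \ {m}) := by
      rw [hlo]
      rintro x ⟨_, hx⟩ y hy hyx
      exact ⟨hy, lt_of_le_of_lt hyx hx⟩
    have hb := ih (X \ {m}) (sdiff_subset.trans hX)
      (by have := ncard_sdiff_singleton_add_one hm hXf; omega) hd'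
    set I := {x | x ∈ X \ {m} ∧ x ∉ M.closure (lo K t (t x))} with hI
    have hXm : insert m (X \ {m}) = X := by
      rw [insert_sdiff_singleton, insert_eq_of_mem hm]
    by_cases hmc : m ∈ M.closure (lo K t (t m))
    · have e : {x | x ∈ X ∧ x ∉ M.closure (lo K t (t x))} = I := by
        ext x
        constructor
        · rintro ⟨h1, h2⟩
          refine ⟨⟨h1, ?_⟩, h2⟩
          intro h
          rw [mem_singleton_iff.1 h] at h2
          exact h2 hmc
        · rintro ⟨⟨h1, _⟩, h2⟩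
          exact ⟨h1, h2⟩
      rw [e]
      apply hb.indep.isBasis_of_subset_of_subset_closure
      · exact hb.subset.trans sdiff_subset
      · rw [← hXm]
        apply insert_subset
        · rw [hb.closure_eq_closure, hlo]; exact hmc
        · exact hb.subset_closure
    · have e : {x | x ∈ X ∧ x ∉ M.closure (lo K t (t x))} = insert m I := by
        ext x
        constructor
        · rintro ⟨h1, h2⟩
          by_cases h : x = m
          · left; exact h
          · right; exact ⟨⟨h1, h⟩, h2⟩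
        · rintro (h | ⟨⟨h1, _⟩, h2⟩)
          · subst h
            exact ⟨hm, hmc⟩
          · exact ⟨h1, h2⟩
      rw [e]
      have hmI : m ∉ M.closure I := by
        rw [hb.closure_eq_closure, hlo]; exact hmc
      have := hb.insert_isBasis_insert_of_notMem_closure hmI (hXE hm)
      rw [hXm] at this
      exact this

lemma greedy_basis (hKE : K ⊆ M.E) (htK : InjOn t K) (s : ℤ) :
    M.IsBasis (greedy M K t ∩ lo K t s) (lo K t s) := by
  have h := greedy_basis_aux (M := M) hKE htK _ (lo K t s) (lo_sub K t s) rfl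
    (by rintro x ⟨_, hx⟩ y hy hyx; exact ⟨hy, lt_of_le_of_lt hyx hx⟩)
  have e : greedy M K t ∩ lo K t s = {x | x ∈ lo K t s ∧ x ∉ M.closure (lo K t (t x))} := by
    ext x
    constructor
    · rintro ⟨⟨_, h2⟩, h3⟩; exact ⟨h3, h2⟩
    · rintro ⟨h1, h2⟩; exact ⟨⟨h1.1, h2⟩, h1⟩
  rw [e]; exact h

/-- the upper cut of a circuit can be moved down to its last element -/
lemma circuit_top {C : Set α} (hCK : C ⊆ K) {u s : ℤ}
    (h1 : ∀ x ∈ C, u ≤ t x ∧ t x < s)
    (h2 : rk M C + rk M K = rk M (lo K t s) + rk M (hi K t u)) {y : α} (hy : y ∈ C)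
    (hmax : ∀ x ∈ C, t x ≤ t y) : rk M (lo K t (t y + 1)) = rk M (lo K t s) := by
  have hsub : C ⊆ lo K t (t y + 1) ∩ hi K t u := by
    intro x hx
    refine ⟨⟨hCK hx, ?_⟩, ⟨hCK hx, (h1 x hx).1⟩⟩
    have := hmax x hx; omega
  have e1 := rk_submod (M := M) (lo K t (t y + 1)) (hi K t u)
  have hu : u ≤ t y + 1 := by have := (h1 y hy).1; omega
  rw [lo_union_hi hu] at e1
  have e2 := rk_mono (M := M) hsub
  have hs : t y + 1 ≤ s := by have := (h1 y hy).2; omega
  have e3 := rk_mono (M := M) (lo_mono (K := K) (t := t) hs)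
  omega

lemma lo_succ (htK : InjOn t K) {y : α} (hy : y ∈ K) : lo K t (t y + 1) = insert y (lo K t (t y)) := by
  ext x
  constructor
  · rintro ⟨hx, hxt⟩
    by_cases h : t x = t y
    · left; exact htK hx hy h
    · right; exact ⟨hx, by omega⟩
  · rintro (h | ⟨hx, hxt⟩)
    · subst h; exact ⟨hy, by omega⟩
    · exact ⟨hx, by omega⟩

lemma initial_CF (hK : Comp M K) (ht : OrdOn M K t) {C : Set α} (hC : M.IsCircuit C)
    (hCK : C ⊆ K) {u s : ℤ} (h1 : ∀ x ∈ C, u ≤ t x ∧ t x < s)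
    (h2 : rk M C + rk M K = rk M (lo K t s) + rk M (hi K t u)) :
    CF M K (M.closure (lo K t s) ∩ K) := by
  have hKE : K ⊆ M.E := hK.1
  have hCf : C.Finite := M.set_finite C hC.subset_ground
  obtain ⟨y, hy, hmax⟩ := exists_max_image C t hCf hC.nonempty
  have hyK : y ∈ K := hCK hy
  set L := lo K t (t y) with hL
  have hLE : L ⊆ M.E := (lo_sub K t _).trans hKE
  have hCy : C \ {y} ⊆ L := by
    rintro x ⟨hx, hxy⟩
    refine ⟨hCK hx, lt_of_le_of_ne (hmax x hx) ?_⟩
    intro h; exact hxy (ht.1 (hCK hx) hyK h)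
  have hycl : y ∈ M.closure L :=
    M.closure_subset_closure hCy (hC.mem_closure_sdiff_singleton_of_mem hy)
  have hsuc := lo_succ ht.1 hyK
  have hr0 : rk M (lo K t (t y + 1)) = rk M L := by
    rw [hsuc]
    exact (rk_eq_of_subset_closure (subset_insert _ _)
      (insert_subset hycl (M.subset_closure _ hLE))).symm
  have hr1 := circuit_top hCK h1 h2 hy hmax
  have hLs : L ⊆ lo K t s := lo_mono (by have := (h1 y hy).2; omega)
  have hclL : M.closure L = M.closure (lo K t s) :=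
    closure_eq_of_rk hLs ((lo_sub K t s).trans hKE) (by omega)
  -- the greedy basis
  have hB := greedy_basis (M := M) hKE ht.1 (t y)
  set B := greedy M K t ∩ lo K t (t y) with hBdef
  have hBL : B ⊆ L := inter_subset_right
  have hyB : y ∉ B := fun h => by have := (hBL h).2; omega
  have hyclB : y ∈ M.closure B := by rw [hB.closure_eq_closure]; exact hycl
  have hC1 := hB.indep.fundCircuit_isCircuit hyclB hyB
  set C1 := M.fundCircuit y B with hC1def
  have hC1s : C1 ⊆ insert y B := M.fundCircuit_subset_insert y B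
  have hyC1 : y ∈ C1 := M.mem_fundCircuit y B
  have hC1K : C1 ⊆ K := hC1s.trans (insert_subset hyK (hBL.trans (lo_sub K t _)))
  obtain ⟨u1, s1, h3, h4⟩ := ht.2 C1 hC1 hC1K
  have hmax1 : ∀ x ∈ C1, t x ≤ t y := by
    intro x hx
    rcases hC1s hx with h | h
    · rw [h]
    · exact (hBL h).2.le
  have hr2 := circuit_top hC1K h3 h4 hyC1 hmax1
  have hrB : B.ncard = rk M L := basis_ncard hB
  -- count
  have hBf : B.Finite := indep_finite hB.indep
  have hu1 : u1 ≤ t y := (h3 y hyC1).1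
  have hsplit : B.ncard = (B ∩ lo K t u1).ncard + (B \ lo K t u1).ncard :=
    (ncard_inter_add_ncard_sdiff_eq_ncard B (lo K t u1) hBf).symm
  have hBlo : B ∩ lo K t u1 = greedy M K t ∩ lo K t u1 := by
    ext x
    constructor
    · rintro ⟨⟨h5, _⟩, h6⟩; exact ⟨h5, h6⟩
    · rintro ⟨h5, h6⟩; exact ⟨⟨h5, lo_mono hu1 h6⟩, h6⟩
  have hrlo : (B ∩ lo K t u1).ncard = rk M (lo K t u1) := by
    rw [hBlo]; exact basis_ncard (greedy_basis (M := M) hKE ht.1 u1)
  have hC1n : C1.ncard = rk M C1 + 1 := circuit_ncard hC1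
  have hC1f : C1.Finite := circuit_finite hC1
  have hC1sub : C1 \ {y} ⊆ B \ lo K t u1 := by
    rintro x ⟨hx, hxy⟩
    refine ⟨?_, ?_⟩
    · rcases hC1s hx with h | h
      · exact absurd h hxy
      · exact h
    · intro h
      have := (h3 x hx).1
      have := h.2
      omega
  have hle : (C1 \ {y}).ncard ≤ (B \ lo K t u1).ncard :=
    ncard_le_ncard hC1sub (hBf.subset sdiff_subset)
  have hC1y := ncard_sdiff_singleton_add_one hyC1 hC1f
  have hempty : ¬ (lo K t u1).Nonempty := by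
    intro hne
    have hcut := comp_cut hK (I := lo K t u1) (J := hi K t u1) (lo_union_hi le_rfl)
      (by rintro x ⟨_, hx⟩ ⟨_, hx'⟩; omega) hne ⟨y, hyK, hu1⟩
    omega
  have hhi : hi K t u1 = K := by
    have := lo_union_hi (K := K) (t := t) (le_refl u1)
    rw [not_nonempty_iff_eq_empty.1 hempty, empty_union] at this
    exact this
  rw [hhi] at h4
  have hrC1 : rk M C1 = rk M L := by omega
  refine ⟨C1, hC1, hC1K, ?_⟩
  have hC1L : C1 ⊆ M.closure L :=
    hC1s.trans (insert_subset hycl (hBL.trans (M.subset_closure _ hLE)))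
  have : M.closure C1 = M.closure (M.closure L) :=
    closure_eq_of_rk hC1L (M.closure_subset_ground _) (by rw [rk_closure]; omega)
  rw [this, M.closure_closure, hclL]

lemma modu_of_rk {F G : Set α} (hF : F ⊆ M.E) (hG : G ⊆ M.E)
    (h : rk M F + rk M G = rk M (F ∩ G) + rk M (F ∪ G)) : Modu M F G (F ∩ G) := by
  obtain ⟨I₀, h0⟩ := M.exists_isBasis (F ∩ G) (inter_subset_left.trans hF)
  obtain ⟨I₁, h1, h01⟩ := h0.indep.subset_isBasis_of_subset (h0.subset.trans inter_subset_left) hF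
  obtain ⟨I₂, h2, h02⟩ := h0.indep.subset_isBasis_of_subset (h0.subset.trans inter_subset_right) hG
  have hsub : I₁ ∪ I₂ ⊆ M.E := union_subset h1.indep.subset_ground h2.indep.subset_ground
  have hspan : F ∪ G ⊆ M.closure (I₁ ∪ I₂) :=
    union_subset (h1.subset_closure.trans (M.closure_subset_closure subset_union_left))
      (h2.subset_closure.trans (M.closure_subset_closure subset_union_right))
  have hr : rk M (I₁ ∪ I₂) = rk M (F ∪ G) :=
    rk_eq_of_subset_closure (union_subset_union h1.subset h2.subset) hspan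
  have hc := ncard_union_add_ncard_inter I₁ I₂ (indep_finite h1.indep) (indep_finite h2.indep)
  have hc2 : I₀.ncard ≤ (I₁ ∩ I₂).ncard :=
    ncard_le_ncard (subset_inter h01 h02) ((indep_finite h1.indep).subset inter_subset_left)
  have e0 := basis_ncard h0
  have e1 := basis_ncard h1
  have e2 := basis_ncard h2
  have hind : M.Indep (I₁ ∪ I₂) := indep_of_ncard_le hsub (by omega)
  exact ⟨I₁ ∪ I₂, I₁, I₂, I₀, hind, subset_union_left, h1.subset, h1.subset_closure,
    subset_union_right, h2.subset, h2.subset_closure, h01.trans subset_union_left, h0.subset,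
    h0.subset_closure⟩

lemma down_total {F G : Set α} (hF : F ⊆ K) (hG : G ⊆ K) (h1 : Down K t F) (h2 : Down K t G) :
    F ⊆ G ∨ G ⊆ F := by
  by_contra h
  push Not at h
  obtain ⟨h3, h4⟩ := h
  obtain ⟨x, hx, hxG⟩ := not_subset.1 h3
  obtain ⟨y, hy, hyF⟩ := not_subset.1 h4
  rcases le_total (t x) (t y) with h | h
  · exact hxG (h2 y hy x (hF hx) h)
  · exact hyF (h1 x hx y (hG hy) h)

theorem cond_of_ordOn (hK : Comp M K) (ht : OrdOn M K t) : Cond M K := by
  have hKE := hK.1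
  have hKf : K.Finite := M.set_finite K hKE
  obtain ⟨a, haK, hamin⟩ := exists_min_image K t hKf hK.2.1
  obtain ⟨b, hbK, hbmax⟩ := exists_max_image K t hKf hK.2.1
  have htn := ht.neg
  -- structure of every `Z`
  have key : ∀ Z, CF M K Z → ∃ F G, Z = F ∩ G ∧ Down K t F ∧ Down K (fun x => - t x) G ∧
      F ⊆ K ∧ G ⊆ K ∧ F ∪ G = K ∧ CF M K F ∧ CF M K G ∧ Z.Nonempty ∧ Modu M F G Z := by
    rintro Z ⟨C, hC, hCK, rfl⟩
    obtain ⟨u, s, h1, h2⟩ := ht.2 C hC hCK
    obtain ⟨e1, e2⟩ := closure_circuit hKE hC hCK h1 h2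
    obtain ⟨c, hc⟩ := hC.nonempty
    have hus : u ≤ s := by have := h1 c hc; omega
    have hun : (M.closure (lo K t s) ∩ K) ∪ (M.closure (hi K t u) ∩ K) = K := by
      apply subset_antisymm (union_subset inter_subset_right inter_subset_right)
      intro x hx
      have hx' := hx
      rw [← lo_union_hi (K := K) (t := t) hus] at hx'
      rcases hx' with h | h
      · exact Or.inl ⟨M.mem_closure_of_mem h ((lo_sub K t s).trans hKE), hx⟩
      · exact Or.inr ⟨M.mem_closure_of_mem h ((hi_sub K t u).trans hKE), hx⟩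
    refine ⟨M.closure (lo K t s) ∩ K, M.closure (hi K t u) ∩ K, e1, down_closure hK ht s, ?_,
      inter_subset_right, inter_subset_right, hun, initial_CF hK ht hC hCK h1 h2, ?_, ?_, ?_⟩
    · have := down_closure hK htn (1 - u)
      rw [lo_neg] at this
      have e : (1 : ℤ) - (1 - u) = u := by ring
      rw [e] at this
      exact this
    · have h1' : ∀ x ∈ C, (1 - s) ≤ (fun x => - t x) x ∧ (fun x => - t x) x < 1 - u := by
        intro x hx
        have := h1 x hx
        constructor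
        · show 1 - s ≤ - t x
          omega
        · show - t x < 1 - u
          omega
      have h2' : rk M C + rk M K = rk M (lo K (fun x => - t x) (1 - u)) +
          rk M (hi K (fun x => - t x) (1 - s)) := by
        rw [lo_neg, hi_neg]
        have e1 : (1 : ℤ) - (1 - u) = u := by ring
        have e2 : (1 : ℤ) - (1 - s) = s := by ring
        rw [e1, e2, h2, add_comm]
      have := initial_CF hK htn hC hCK h1' h2'
      rw [lo_neg] at this
      have e : (1 : ℤ) - (1 - u) = u := by ring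
      rw [e] at this
      exact this
    · exact ⟨c, M.mem_closure_of_mem hc hC.subset_ground, hCK hc⟩
    · rw [e1]
      apply modu_of_rk (inter_subset_right.trans hKE) (inter_subset_right.trans hKE)
      rw [hun]; exact e2
  have keyA : ∀ Z, CF M K Z → a ∈ Z → Down K t Z := by
    intro Z hZ ha
    obtain ⟨F, G, e, hF, hG, hFK, hGK, hun, _, _, _⟩ := key Z hZ
    rw [e] at ha
    have hGe : G = K := subset_antisymm hGK (fun x hx => hG a ha.2 x hx (by
      have := hamin x hx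
      show - t x ≤ - t a
      omega))
    have : Z = F := by rw [e, hGe]; exact inter_eq_left.2 hFK
    rw [this]; exact hF
  have keyB : ∀ Z, CF M K Z → b ∈ Z → Down K (fun x => - t x) Z := by
    intro Z hZ hb
    obtain ⟨F, G, e, hF, hG, hFK, hGK, hun, _, _, _⟩ := key Z hZ
    rw [e] at hb
    have hFe : F = K := subset_antisymm hFK (fun x hx => hF b hb.1 x hx (hbmax x hx))
    have : Z = G := by rw [e, hFe]; exact inter_eq_right.2 hGK
    rw [this]; exact hG
  have hZK : ∀ Z, CF M K Z → Z ⊆ K := by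
    rintro Z ⟨C, _, _, rfl⟩; exact inter_subset_right
  refine ⟨{a}, {b}, singleton_subset_iff.2 (hKE haK), singleton_subset_iff.2 (hKE hbK), ?_, ?_, ?_,
    ?_, ?_⟩
  · intro Z Z' hZ hZ' ha ha' _ _
    exact down_total (hZK Z hZ) (hZK Z' hZ') (keyA Z hZ (singleton_subset_iff.1 ha))
      (keyA Z' hZ' (singleton_subset_iff.1 ha'))
  · intro Z Z' hZ hZ' hb hb' _ _
    exact down_total (hZK Z hZ) (hZK Z' hZ') (keyB Z hZ (singleton_subset_iff.1 hb))
      (keyB Z' hZ' (singleton_subset_iff.1 hb'))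
  · intro Z hZ ha hb x hx
    exact keyA Z hZ (singleton_subset_iff.1 ha) b (singleton_subset_iff.1 hb) x hx (hbmax x hx)
  · intro Z Z' hZ hZ' ha _ hb _
    have hd := keyA Z hZ (singleton_subset_iff.1 ha)
    have hd' := keyB Z' hZ' (singleton_subset_iff.1 hb)
    by_cases h : ∀ x ∈ Z, x ∉ Z'
    · exact Or.inl h
    · right
      push Not at h
      obtain ⟨x, hx, hx'⟩ := h
      intro y hy
      rcases le_total (t y) (t x) with h | h
      · exact Or.inl (hd x hx y hy h)
      · exact Or.inr (hd' x hx' y hy (by show - t y ≤ - t x; omega))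
  · intro Z hZ ha hb
    obtain ⟨F, G, e, hF, hG, hFK, hGK, hun, hcF, hcG, hne, hmod⟩ := key Z hZ
    obtain ⟨z, hz⟩ := hne
    have hzF : z ∈ F := by rw [e] at hz; exact hz.1
    have hzG : z ∈ G := by rw [e] at hz; exact hz.2
    have haF : a ∈ F := hF z hzF a haK (hamin z (hFK hzF))
    have hbG : b ∈ G := hG z hzG b hbK (by
      have := hbmax z (hGK hzG)
      show - t b ≤ - t z
      omega)
    refine ⟨F, G, hcF, hcG, singleton_subset_iff.2 haF, ?_, singleton_subset_iff.2 hbG, ?_,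
      by rw [hun], e, hmod⟩
    · intro h
      apply hb
      rw [e]
      exact singleton_subset_iff.2 ⟨singleton_subset_iff.1 h, hbG⟩
    · intro h
      apply ha
      rw [e]
      exact singleton_subset_iff.2 ⟨haF, singleton_subset_iff.1 h⟩

end

end Pool.Agent.W307.LP
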