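import Pool.Agent.W307.LP3

set_option autoImplicit false

namespace Pool.Agent.W307.LP

open Set

variable {α : Type}

section
variable {M : Matroid α} [M.Finite] {K : Set α}

/-- a chain of subsets of a finite set consists of initial segments of some order -/
lemma exists_order (hKf : K.Finite) (𝒞 : Set (Set α)) (h𝒞 : ∀ W ∈ 𝒞, W ⊆ K)
    (hch : ∀ W ∈ 𝒞, ∀ W' ∈ 𝒞, W ⊆ W' ∨ W' ⊆ W) :
    ∃ t : α → ℤ, InjOn t K ∧ ∀ W ∈ 𝒞, ∃ s : ℤ, W = lo K t s := by
  classical
  obtain ⟨e, he⟩ : ∃ e : α → ℕ, InjOn e K := (countable_iff_exists_injOn.1 hKf.countable)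
  obtain ⟨N, hN⟩ : ∃ N : ℕ, ∀ x ∈ K, e x < N := by
    by_cases hne : K.Nonempty
    · obtain ⟨m, hm, hmax⟩ := exists_max_image K e hKf hne
      exact ⟨e m + 1, fun x hx => Nat.lt_succ_of_le (hmax x hx)⟩
    · exact ⟨0, fun x hx => absurd ⟨x, hx⟩ hne⟩
  have h𝒞f : 𝒞.Finite := (hKf.finite_subsets).subset (fun W hW => h𝒞 W hW)
  let c : α → ℕ := fun x => {W | W ∈ 𝒞 ∧ x ∉ W}.ncard
  have hc : ∀ W ∈ 𝒞, ∀ x ∈ W, ∀ y ∈ K, y ∉ W → c x < c y := by
    intro W hW x hx y _ hyW
    apply ncard_lt_ncard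
    · refine ⟨?_, ?_⟩
      · rintro V ⟨hV, hxV⟩
        refine ⟨hV, fun hyV => ?_⟩
        rcases hch W hW V hV with h | h
        · exact hxV (h hx)
        · exact hyW (h hyV)
      · intro h
        exact (h (show W ∈ {V | V ∈ 𝒞 ∧ y ∉ V} from ⟨hW, hyW⟩)).2 hx
    · exact h𝒞f.subset (fun V hV => hV.1)
  let t : α → ℤ := fun x => ((c x * N + e x : ℕ) : ℤ)
  have hlt : ∀ x ∈ K, ∀ y ∈ K, c x < c y → t x < t y := by
    intro x hx y _ h
    have h1 := hN x hx
    have h2 : (c x + 1) * N ≤ c y * N := Nat.mul_le_mul_right N h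
    have h3 : c x * N + e x < c y * N + e y := by
      rw [add_mul, one_mul] at h2; omega
    show ((c x * N + e x : ℕ) : ℤ) < ((c y * N + e y : ℕ) : ℤ)
    exact_mod_cast h3
  refine ⟨t, ?_, ?_⟩
  · intro x hx y hy hxy
    rcases lt_trichotomy (c x) (c y) with h | h | h
    · exact absurd hxy (hlt x hx y hy h).ne
    · apply he hx hy
      have h1 : ((c x * N + e x : ℕ) : ℤ) = ((c y * N + e y : ℕ) : ℤ) := hxy
      have h2 : c x * N + e x = c y * N + e y := by exact_mod_cast h1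
      rw [h] at h2
      omega
    · exact absurd hxy (hlt y hy x hx h).ne'
  · intro W hW
    have hWf : W.Finite := hKf.subset (h𝒞 W hW)
    by_cases hne : W.Nonempty
    · obtain ⟨m, hm, hmax⟩ := exists_max_image W t hWf hne
      refine ⟨t m + 1, ?_⟩
      ext x
      constructor
      · intro hx
        refine ⟨h𝒞 W hW hx, ?_⟩
        have := hmax x hx; omega
      · rintro ⟨hxK, hx⟩
        by_contra hxW
        have := hlt m (h𝒞 W hW hm) x hxK (hc W hW m hm x hxK hxW)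
        omega
    · refine ⟨0, ?_⟩
      rw [not_nonempty_iff_eq_empty.1 hne]
      symm
      rw [eq_empty_iff_forall_notMem]
      rintro x ⟨_, hx⟩
      have : (0 : ℤ) ≤ t x := by
        show (0 : ℤ) ≤ ((c x * N + e x : ℕ) : ℤ)
        exact Int.natCast_nonneg _
      omega

lemma rk_of_modu {Z₁ Z₂ Z : Set α} (hZ : Z = Z₁ ∩ Z₂) (h1E : Z₁ ⊆ M.E) (h2E : Z₂ ⊆ M.E)
    (h : Modu M Z₁ Z₂ Z) : rk M Z₁ + rk M Z₂ = rk M Z + rk M (Z₁ ∪ Z₂) := by
  obtain ⟨B, I₁, I₂, I₀, hB, h1B, h1Z, h1c, h2B, h2Z, h2c, h0B, h0Z, h0c⟩ := h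
  have hi1 := hB.subset h1B
  have hi2 := hB.subset h2B
  have hi0 := hB.subset h0B
  have e1 : I₁.ncard = rk M Z₁ := by
    rw [← indep_rk hi1]; exact rk_eq_of_subset_closure h1Z h1c
  have e2 : I₂.ncard = rk M Z₂ := by
    rw [← indep_rk hi2]; exact rk_eq_of_subset_closure h2Z h2c
  have e0 : I₀.ncard = rk M Z := by
    rw [← indep_rk hi0]; exact rk_eq_of_subset_closure h0Z h0c
  have hc := ncard_union_add_ncard_inter I₁ I₂ (indep_finite hi1) (indep_finite hi2)
  have hu : (I₁ ∪ I₂).ncard ≤ rk M (Z₁ ∪ Z₂) :=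
    indep_le (hB.subset (union_subset h1B h2B)) (union_subset_union h1Z h2Z)
  have hii : (I₁ ∩ I₂).ncard ≤ rk M Z := by
    rw [hZ]
    exact indep_le (hi1.subset inter_subset_left) (inter_subset_inter h1Z h2Z)
  have hs := rk_submod (M := M) Z₁ Z₂
  rw [← hZ] at hs
  omega

theorem ordOn_of_cond (hKE : K ⊆ M.E) (h : Cond M K) : ∃ t, OrdOn M K t := by
  classical
  obtain ⟨A, B, _, _, hA, hB, hAB, hD, hC⟩ := h
  have hKf : K.Finite := M.set_finite K hKE
  let 𝒞 : Set (Set α) := {W | (CF M K W ∧ A ⊆ W ∧ ¬ B ⊆ W) ∨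
    (∃ Z, CF M K Z ∧ B ⊆ Z ∧ ¬ A ⊆ Z ∧ W = K \ Z)}
  have hZK : ∀ Z, CF M K Z → Z ⊆ K := by
    rintro Z ⟨C, _, _, rfl⟩; exact inter_subset_right
  obtain ⟨t, htK, ht⟩ := exists_order hKf 𝒞 (by
    rintro W (⟨h1, _, _⟩ | ⟨Z, _, _, _, rfl⟩)
    · exact hZK W h1
    · exact sdiff_subset) (by
    rintro W (⟨h1, h2, h3⟩ | ⟨Z, h1, h2, h3, rfl⟩) W' (⟨h4, h5, h6⟩ | ⟨Z', h4, h5, h6, rfl⟩)
    · exact hA W W' h1 h4 h2 h5 h3 h6
    · rcases hD W Z' h1 h4 h2 h3 h5 h6 with h | h
      · left; intro x hx; exact ⟨hZK W h1 hx, h x hx⟩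
      · right; rintro x ⟨hx, hxZ⟩
        rcases h hx with h' | h'
        · exact h'
        · exact absurd h' hxZ
    · rcases hD W' Z h4 h1 h5 h6 h2 h3 with h | h
      · right; intro x hx; exact ⟨hZK W' h4 hx, h x hx⟩
      · left; rintro x ⟨hx, hxZ⟩
        rcases h hx with h' | h'
        · exact h'
        · exact absurd h' hxZ
    · rcases hB Z Z' h1 h4 h2 h5 h3 h6 with h | h
      · right; exact sdiff_subset_sdiff_right h
      · left; exact sdiff_subset_sdiff_right h)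
  have hfin : ∀ Z, CF M K Z → B ⊆ Z → ¬ A ⊆ Z → ∃ u, Z = hi K t u := by
    intro Z h1 h2 h3
    obtain ⟨s, hs⟩ := ht (K \ Z) (Or.inr ⟨Z, h1, h2, h3, rfl⟩)
    refine ⟨s, ?_⟩
    ext x
    constructor
    · intro hx
      refine ⟨hZK Z h1 hx, ?_⟩
      by_contra hlt
      push Not at hlt
      have : x ∈ K \ Z := by rw [hs]; exact ⟨hZK Z h1 hx, hlt⟩
      exact this.2 hx
    · rintro ⟨hx, hxt⟩
      by_contra hxZ
      have : x ∈ lo K t s := by rw [← hs]; exact ⟨hx, hxZ⟩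
      have := this.2
      omega
  obtain ⟨m, hm⟩ : ∃ m : ℤ, ∀ x ∈ K, m ≤ t x := by
    by_cases hne : K.Nonempty
    · obtain ⟨y, _, hy⟩ := exists_min_image K t hKf hne
      exact ⟨t y, hy⟩
    · exact ⟨0, fun x hx => absurd ⟨x, hx⟩ hne⟩
  obtain ⟨m', hm'⟩ : ∃ m : ℤ, ∀ x ∈ K, t x < m := by
    by_cases hne : K.Nonempty
    · obtain ⟨y, _, hy⟩ := exists_max_image K t hKf hne
      exact ⟨t y + 1, fun x hx => by have := hy x hx; omega⟩
    · exact ⟨0, fun x hx => absurd ⟨x, hx⟩ hne⟩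
  have hloK : lo K t m' = K := subset_antisymm (lo_sub K t m') (fun x hx => ⟨hx, hm' x hx⟩)
  have hhiK : hi K t m = K := subset_antisymm (hi_sub K t m) (fun x hx => ⟨hx, hm x hx⟩)
  refine ⟨t, htK, ?_⟩
  intro C hCc hCK
  have hCF : CF M K (M.closure C ∩ K) := ⟨C, hCc, hCK, rfl⟩
  have hCsub : C ⊆ M.closure C ∩ K := subset_inter (M.subset_closure C hCc.subset_ground) hCK
  have hrC : rk M (M.closure C ∩ K) = rk M C :=
    (rk_eq_of_subset_closure hCsub inter_subset_left).symm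
  by_cases ha : A ⊆ M.closure C ∩ K
  · by_cases hb : B ⊆ M.closure C ∩ K
    · refine ⟨m, m', fun x hx => ⟨hm x (hCK hx), hm' x (hCK hx)⟩, ?_⟩
      rw [hloK, hhiK]
      have : M.closure C ∩ K = K := subset_antisymm inter_subset_right (hAB _ hCF ha hb)
      rw [this] at hrC
      omega
    · obtain ⟨s, hs⟩ := ht (M.closure C ∩ K) (Or.inl ⟨hCF, ha, hb⟩)
      refine ⟨m, s, fun x hx => ⟨hm x (hCK hx), ?_⟩, ?_⟩
      · have := hCsub hx
        rw [hs] at this
        exact this.2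
      · rw [hhiK, ← hs, hrC]
  · by_cases hb : B ⊆ M.closure C ∩ K
    · obtain ⟨u, hu⟩ := hfin (M.closure C ∩ K) hCF hb ha
      refine ⟨u, m', fun x hx => ⟨?_, hm' x (hCK hx)⟩, ?_⟩
      · have := hCsub hx
        rw [hu] at this
        exact this.2
      · rw [hloK, ← hu, hrC, add_comm]
    · obtain ⟨Z₁, Z₂, h1, h2, h3, h4, h5, h6, h7, h8, h9⟩ := hC _ hCF ha hb
      obtain ⟨s, hs⟩ := ht Z₁ (Or.inl ⟨h1, h3, h4⟩)
      obtain ⟨u, hu⟩ := hfin Z₂ h2 h5 h6
      have hun : Z₁ ∪ Z₂ = K := subset_antisymm (union_subset (hZK _ h1) (hZK _ h2)) h7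
      have hr := rk_of_modu h8 ((hZK _ h1).trans hKE) ((hZK _ h2).trans hKE) h9
      rw [hun, hrC] at hr
      refine ⟨u, s, fun x hx => ?_, ?_⟩
      · have hx' := hCsub hx
        rw [h8] at hx'
        have hx1 := hx'.1
        have hx2 := hx'.2
        rw [hs] at hx1
        rw [hu] at hx2
        exact ⟨hx2.2, hx1.2⟩
      · rw [← hs, ← hu, hr]

/-- restriction of an order to a separator -/
theorem OrdOn.restrict {t : α → ℤ} (h : OrdOn M M.E t) (hKE : K ⊆ M.E) (hK : Sep M K) :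
    OrdOn M K t := by
  refine ⟨h.1.mono hKE, ?_⟩
  intro C hC hCK
  obtain ⟨u, s, h1, h2⟩ := h.2 C hC (hCK.trans hKE)
  refine ⟨u, s, h1, ?_⟩
  obtain ⟨c, hc⟩ := hC.nonempty
  have hus : u ≤ s := by have := h1 c hc; omega
  have hlo : rk M (lo M.E t s) = rk M (lo K t s) + rk M (lo (M.E \ K) t s) := by
    rw [← hK.rk_union (lo_sub K t s) ((lo_sub K t s).trans hKE)
      ((lo_sub _ t s).trans sdiff_subset) (fun y hy => (lo_sub _ t s hy).2)]
    congr 1
    ext x
    constructor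
    · rintro ⟨hx, hxt⟩
      by_cases hxK : x ∈ K
      · exact Or.inl ⟨hxK, hxt⟩
      · exact Or.inr ⟨⟨hx, hxK⟩, hxt⟩
    · rintro (⟨hx, hxt⟩ | ⟨⟨hx, _⟩, hxt⟩)
      · exact ⟨hKE hx, hxt⟩
      · exact ⟨hx, hxt⟩
  have hhi : rk M (hi M.E t u) = rk M (hi K t u) + rk M (hi (M.E \ K) t u) := by
    rw [← hK.rk_union (hi_sub K t u) ((hi_sub K t u).trans hKE)
      ((hi_sub _ t u).trans sdiff_subset) (fun y hy => (hi_sub _ t u hy).2)]
    congr 1
    ext x
    constructor
    · rintro ⟨hx, hxt⟩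
      by_cases hxK : x ∈ K
      · exact Or.inl ⟨hxK, hxt⟩
      · exact Or.inr ⟨⟨hx, hxK⟩, hxt⟩
    · rintro (⟨hx, hxt⟩ | ⟨⟨hx, _⟩, hxt⟩)
      · exact ⟨hKE hx, hxt⟩
      · exact ⟨hx, hxt⟩
  have hE : rk M M.E = rk M K + rk M (M.E \ K) := by
    rw [← hK.rk_union subset_rfl hKE sdiff_subset (fun y hy => hy.2), union_sdiff_cancel hKE]
  have e1 := rk_submod (M := M) (lo (M.E \ K) t s) (hi (M.E \ K) t u)
  rw [lo_union_hi hus] at e1
  have e2 := rk_submod (M := M) (lo K t s) (hi K t u)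
  rw [lo_union_hi hus] at e2
  have e3 : rk M C ≤ rk M (lo K t s ∩ hi K t u) :=
    rk_mono (fun x hx => ⟨⟨hCK hx, (h1 x hx).2⟩, ⟨hCK hx, (h1 x hx).1⟩⟩)
  omega

/-- gluing two orders -/
lemma OrdOn.glue {L : Set α} {t t' : α → ℤ} (hKE : K ⊆ M.E) (hLE : L ⊆ M.E) (hK : Sep M K)
    (hKL : ∀ x ∈ L, x ∉ K) (h : OrdOn M K t) (h' : OrdOn M L t') :
    ∃ t'', OrdOn M (K ∪ L) t'' := by
  classical
  have hKf : K.Finite := M.set_finite K hKE
  have hLf : L.Finite := M.set_finite L hLE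
  obtain ⟨N, hN⟩ : ∃ N : ℤ, ∀ x ∈ K, t x < N := by
    by_cases hne : K.Nonempty
    · obtain ⟨y, _, hy⟩ := exists_max_image K t hKf hne
      exact ⟨t y + 1, fun x hx => by have := hy x hx; omega⟩
    · exact ⟨0, fun x hx => absurd ⟨x, hx⟩ hne⟩
  obtain ⟨N', hN'⟩ : ∃ N' : ℤ, ∀ x ∈ L, N' ≤ t' x := by
    by_cases hne : L.Nonempty
    · obtain ⟨y, _, hy⟩ := exists_min_image L t' hLf hne
      exact ⟨t' y, hy⟩
    · exact ⟨0, fun x hx => absurd ⟨x, hx⟩ hne⟩
  let T : α → ℤ := fun x => if x ∈ K then t x else t' x + (N - N')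
  have hTK : ∀ x ∈ K, T x = t x := fun x hx => if_pos hx
  have hTL : ∀ x ∈ L, T x = t' x + (N - N') := fun x hx => if_neg (hKL x hx)
  have hTKN : ∀ x ∈ K, T x < N := fun x hx => by rw [hTK x hx]; exact hN x hx
  have hTLN : ∀ x ∈ L, N ≤ T x := fun x hx => by rw [hTL x hx]; have := hN' x hx; omega
  refine ⟨T, ?_, ?_⟩
  · rintro x (hx | hx) y (hy | hy) hxy
    · rw [hTK x hx, hTK y hy] at hxy; exact h.1 hx hy hxy
    · have := hTKN x hx; have := hTLN y hy; omega
    · have := hTKN y hy; have := hTLN x hx; omega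
    · rw [hTL x hx, hTL y hy] at hxy; exact h'.1 hx hy (by omega)
  · intro C hC hCKL
    have hKLr : rk M (K ∪ L) = rk M K + rk M L := hK.rk_union subset_rfl hKE hLE hKL
    rcases hK C hC with hCK | hCK
    · obtain ⟨u, s, h1, h2⟩ := h.2 C hC hCK
      obtain ⟨c, hc⟩ := hC.nonempty
      have hu : u < N := by have := (h1 c hc).1; have := hN c (hCK hc); omega
      have e1 : lo (K ∪ L) T (min s N) = lo K t s := by
        ext x
        constructor
        · rintro ⟨hx | hx, hxt⟩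
          · rw [hTK x hx] at hxt; exact ⟨hx, lt_of_lt_of_le hxt (min_le_left _ _)⟩
          · have := hTLN x hx
            have := lt_of_lt_of_le hxt (min_le_right _ _)
            omega
        · rintro ⟨hx, hxt⟩
          refine ⟨Or.inl hx, ?_⟩
          rw [hTK x hx]
          exact lt_min hxt (hN x hx)
      have e2 : hi (K ∪ L) T u = hi K t u ∪ L := by
        ext x
        constructor
        · rintro ⟨hx | hx, hxt⟩
          · rw [hTK x hx] at hxt; exact Or.inl ⟨hx, hxt⟩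
          · exact Or.inr hx
        · rintro (⟨hx, hxt⟩ | hx)
          · exact ⟨Or.inl hx, by rw [hTK x hx]; exact hxt⟩
          · exact ⟨Or.inr hx, by have := hTLN x hx; omega⟩
      refine ⟨u, min s N, ?_, ?_⟩
      · intro x hx
        rw [hTK x (hCK hx)]
        exact ⟨(h1 x hx).1, lt_min (h1 x hx).2 (hN x (hCK hx))⟩
      · rw [e1, e2, hK.rk_union (hi_sub K t u) ((hi_sub K t u).trans hKE) hLE hKL]
        omega
    · have hCL : C ⊆ L := by
        intro x hx
        rcases hCKL hx with h | h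
        · exact absurd h (hCK x hx)
        · exact h
      obtain ⟨u, s, h1, h2⟩ := h'.2 C hC hCL
      obtain ⟨c, hc⟩ := hC.nonempty
      have hs : N < s + (N - N') := by
        have := (h1 c hc).2; have := hN' c (hCL hc); omega
      have e1 : lo (K ∪ L) T (s + (N - N')) = K ∪ lo L t' s := by
        ext x
        constructor
        · rintro ⟨hx | hx, hxt⟩
          · exact Or.inl hx
          · rw [hTL x hx] at hxt; exact Or.inr ⟨hx, by omega⟩
        · rintro (hx | ⟨hx, hxt⟩)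
          · exact ⟨Or.inl hx, by have := hTKN x hx; omega⟩
          · exact ⟨Or.inr hx, by rw [hTL x hx]; omega⟩
      have e2 : hi (K ∪ L) T (max (u + (N - N')) N) = hi L t' u := by
        ext x
        constructor
        · rintro ⟨hx | hx, hxt⟩
          · have := hTKN x hx
            have := le_trans (le_max_right _ _) hxt
            omega
          · have h3 := le_trans (le_max_left _ _) hxt
            rw [hTL x hx] at h3
            exact ⟨hx, by omega⟩
        · rintro ⟨hx, hxt⟩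
          refine ⟨Or.inr hx, max_le ?_ (hTLN x hx)⟩
          rw [hTL x hx]; omega
      refine ⟨max (u + (N - N')) N, s + (N - N'), ?_, ?_⟩
      · intro x hx
        have h3 := h1 x hx
        refine ⟨max_le ?_ (hTLN x (hCL hx)), ?_⟩
        · rw [hTL x (hCL hx)]; omega
        · rw [hTL x (hCL hx)]; omega
      · rw [e1, e2, hK.rk_union subset_rfl hKE ((lo_sub L t' s).trans hLE)
          (fun y hy => hKL y (lo_sub L t' s hy))]
        omega

lemma ordOn_sep (hcomp : ∀ K, Comp M K → ∃ t, OrdOn M K t) (n : ℕ) :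
    ∀ S : Set α, S ⊆ M.E → S.ncard = n → Sep M S → ∃ t, OrdOn M S t := by
  induction n using Nat.strong_induction_on with
  | _ n ih =>
    intro S hSE hcard hS
    have hSf : S.Finite := M.set_finite S hSE
    by_cases hne : S.Nonempty
    · -- a minimal nonempty separator inside
      have hfin : {L : Set α | L ⊆ S ∧ L.Nonempty ∧ Sep M L}.Finite :=
        hSf.finite_subsets.subset (fun L hL => hL.1)
      obtain ⟨K, hK, hKmin⟩ := exists_min_image _ (fun L : Set α => L.ncard) hfin ⟨S, subset_rfl, hne, hS⟩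
      obtain ⟨hKS, hKne, hKs⟩ := hK
      have hKE := hKS.trans hSE
      have hKf : K.Finite := hSf.subset hKS
      have hKc : Comp M K := by
        refine ⟨hKE, hKne, hKs, ?_⟩
        intro L hLK hLne hL
        have := hKmin L ⟨hLK.trans hKS, hLne, hL⟩
        rw [eq_of_subset_of_ncard_le hLK this hKf]
      obtain ⟨t, ht⟩ := hcomp K hKc
      have hS' : Sep M (S \ K) := by
        intro C hC
        rcases hS C hC with h | h
        · rcases hKs C hC with h' | h'
          · right; intro x hx hx'; exact hx'.2 (h' hx)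
          · left; intro x hx; exact ⟨h hx, h' x hx⟩
        · right; intro x hx hx'; exact h x hx hx'.1
      have hlt : (S \ K).ncard < n := by
        rw [← hcard]
        apply ncard_lt_ncard _ hSf
        refine ⟨sdiff_subset, ?_⟩
        obtain ⟨x, hx⟩ := hKne
        intro h
        exact (h (hKS hx)).2 hx
      obtain ⟨t', ht'⟩ := ih _ hlt (S \ K) (sdiff_subset.trans hSE) rfl hS'
      obtain ⟨T, hT⟩ := OrdOn.glue hKE (sdiff_subset.trans hSE) hKs (fun x hx => hx.2) ht ht'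
      rw [union_sdiff_cancel hKS] at hT
      exact ⟨T, hT⟩
    · rw [not_nonempty_iff_eq_empty] at hne
      subst hne
      refine ⟨fun _ => 0, injOn_empty _, ?_⟩
      intro C hC hCe
      obtain ⟨c, hc⟩ := hC.nonempty
      exact absurd (hCe hc) (notMem_empty c)

/-- the order exists on the whole matroid iff the condition holds for all components -/
theorem exists_order_iff : (∃ t, OrdOn M M.E t) ↔ ∀ K, Comp M K → Cond M K := by
  constructor
  · rintro ⟨t, ht⟩ K hK
    exact cond_of_ordOn hK (ht.restrict hK.1 hK.2.2.1)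
  · intro h
    apply ordOn_sep (fun K hK => ordOn_of_cond hK.1 (h K hK)) _ M.E subset_rfl rfl
    intro C hC
    exact Or.inl hC.subset_ground

end

end Pool.Agent.W307.LP
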