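import Mathlib

/-!
# Lattice path matroids and the monadic second-order logic `MS₀` of matroids: definitions
-/

set_option autoImplicit false

namespace Pool.Agent.W307.LP

open Set

/-! ### Lattice path matroids -/

/-- A path with `n` unit steps is given by `P : Fin n → Bool`: the step `i` is North if
`P i = true` and East if `P i = false`.  `height P k` is the number of North steps among the first
`k` steps, that is the ordinate of the point reached after `k` steps (the abscissa is
`k - height P k`). -/
def height {n : ℕ} (P : Fin n → Bool) (k : ℕ) : ℕ :=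
  (Finset.univ.filter fun i : Fin n => i.1 < k ∧ P i = true).card

/-- `P` is a lattice path from `(0,0)` to `(m,r)`: it has `m + r` unit steps, `r` of them North. -/
def IsPath (m r : ℕ) (P : Fin (m + r) → Bool) : Prop := height P (m + r) = r

/-- `P` never goes above `Q`: after each number `k` of steps (that is, on each antidiagonal
`x + y = k`) the path `P` is at most as high as the path `Q`. -/
def NeverAbove {n : ℕ} (P Q : Fin n → Bool) : Prop := ∀ k, k ≤ n → height P k ≤ height Q k

/-- The set of indices of the North steps of a path. -/
def northSteps {n : ℕ} (R : Fin n → Bool) : Set (Fin n) := {i | R i = true}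

/-- `M` is isomorphic to a lattice path matroid `M[P,Q]`: there are paths `P`, `Q` from `(0,0)` to
`(m,r)`, `P` never above `Q`, and a bijection `f` from the index set `Fin (m + r)` to the ground set
of `M`, such that the bases of `M` are exactly the images of the sets of North steps of the paths
`R` from `(0,0)` to `(m,r)` which stay between `P` and `Q`. -/
def IsLatticePathMatroid {α : Type} (M : Matroid α) : Prop :=
  ∃ (m r : ℕ) (P Q : Fin (m + r) → Bool), IsPath m r P ∧ IsPath m r Q ∧ NeverAbove P Q ∧
    ∃ f : Fin (m + r) → α, Function.Injective f ∧ Set.range f = M.E ∧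
      ∀ B : Set α, M.IsBase B ↔
        ∃ R : Fin (m + r) → Bool, IsPath m r R ∧ NeverAbove P R ∧ NeverAbove R Q ∧
          B = f '' northSteps R

/-! ### The logic `MS₀` -/

/-- `Formula n` is the type of `MS₀` formulas whose free variables are among `X₀, …, X_{n-1}`.
In `ex φ` and `all φ` the bound variable is the variable number `0` of `φ`; the variable number
`i` of `ex φ` is the variable number `i + 1` of `φ`. -/
inductive Formula : ℕ → Type
  | ind {n : ℕ} (i : Fin n) : Formula n
  | sub {n : ℕ} (i j : Fin n) : Formula n
  | neg {n : ℕ} (φ : Formula n) : Formula n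
  | and {n : ℕ} (φ ψ : Formula n) : Formula n
  | or {n : ℕ} (φ ψ : Formula n) : Formula n
  | imp {n : ℕ} (φ ψ : Formula n) : Formula n
  | ex {n : ℕ} (φ : Formula (n + 1)) : Formula n
  | all {n : ℕ} (φ : Formula (n + 1)) : Formula n

/-- A sentence is a formula without free variables. -/
abbrev Sentence : Type := Formula 0

/-- Satisfaction in the matroid `M`: `ind i` says that `Xᵢ` is independent, `sub i j` that
`Xᵢ ⊆ Xⱼ`, and the quantifiers range over the subsets of the ground set. -/
def Sat {α : Type} (M : Matroid α) : {n : ℕ} → Formula n → (Fin n → Set α) → Prop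
  | _, .ind i, v => M.Indep (v i)
  | _, .sub i j, v => v i ⊆ v j
  | _, .neg φ, v => ¬ Sat M φ v
  | _, .and φ ψ, v => Sat M φ v ∧ Sat M ψ v
  | _, .or φ ψ, v => Sat M φ v ∨ Sat M ψ v
  | _, .imp φ ψ, v => Sat M φ v → Sat M ψ v
  | _, .ex φ, v => ∃ X : Set α, X ⊆ M.E ∧ Sat M φ (Fin.cons X v)
  | _, .all φ, v => ∀ X : Set α, X ⊆ M.E → Sat M φ (Fin.cons X v)

/-- The sentence `φ` holds in `M`. -/
def Models {α : Type} (M : Matroid α) (φ : Sentence) : Prop := Sat M φ Fin.elim0

end Pool.Agent.W307.LP
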