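import Pool.Agent.W307.LP4
import Pool.Agent.W307.LPDefs

set_option autoImplicit false

namespace Pool.Agent.W307.LP

open Set

variable {α : Type}

/-! ### Heights -/

lemma height_zero {n : ℕ} (P : Fin n → Bool) : height P 0 = 0 := by
  simp [height]

lemma height_succ {n : ℕ} (P : Fin n → Bool) (k : ℕ) (hk : k < n) :
    height P (k + 1) = height P k + (if P ⟨k, hk⟩ = true then 1 else 0) := by
  unfold height
  by_cases h : P ⟨k, hk⟩ = true
  · rw [if_pos h]
    have e : (Finset.univ.filter fun i : Fin n => i.1 < k + 1 ∧ P i = true) =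
        insert ⟨k, hk⟩ (Finset.univ.filter fun i : Fin n => i.1 < k ∧ P i = true) := by
      ext i
      simp only [Finset.mem_filter, Finset.mem_univ, true_and, Finset.mem_insert]
      constructor
      · rintro ⟨h1, h2⟩
        by_cases h3 : i.1 = k
        · left; exact Fin.ext h3
        · right; exact ⟨by omega, h2⟩
      · rintro (h1 | ⟨h1, h2⟩)
        · subst h1; exact ⟨Nat.lt_succ_self k, h⟩
        · exact ⟨by omega, h2⟩
    rw [e, Finset.card_insert_of_notMem]
    simp
  · rw [if_neg h, add_zero]
    congr 1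
    ext i
    simp only [Finset.mem_filter, Finset.mem_univ, true_and]
    constructor
    · rintro ⟨h1, h2⟩
      refine ⟨?_, h2⟩
      by_contra h3
      have h4 : i.1 = k := by omega
      have h5 : i = ⟨k, hk⟩ := Fin.ext h4
      rw [h5] at h2
      exact h h2
    · rintro ⟨h1, h2⟩
      exact ⟨by omega, h2⟩

lemma height_of_steps {n : ℕ} (h : ℕ → ℕ) (h0 : h 0 = 0)
    (hs : ∀ k, k < n → h (k + 1) = h k ∨ h (k + 1) = h k + 1) (R : Fin n → Bool)
    (hR : ∀ i : Fin n, R i = true ↔ h (i.1 + 1) = h i.1 + 1) : ∀ k, k ≤ n → height R k = h k := by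
  intro k
  induction k with
  | zero => intro _; rw [height_zero, h0]
  | succ k ih =>
    intro hk
    have hk' : k < n := hk
    rw [height_succ R k hk', ih hk'.le]
    by_cases h1 : R ⟨k, hk'⟩ = true
    · rw [if_pos h1, (hR ⟨k, hk'⟩).1 h1]
    · rw [if_neg h1]
      rcases hs k hk' with h2 | h2
      · rw [h2]; rfl
      · exact absurd ((hR ⟨k, hk'⟩).2 h2) h1

section
variable {n : ℕ} {f : Fin n → α} (hf : Function.Injective f)
include hf

lemma ncard_below (R : Fin n → Bool) (k : ℕ) :
    (f '' {i | i.1 < k ∧ R i = true}).ncard = height R k := by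
  rw [ncard_image_of_injective _ hf]
  have : {i : Fin n | i.1 < k ∧ R i = true} =
      ((Finset.univ.filter fun i : Fin n => i.1 < k ∧ R i = true : Finset (Fin n)) : Set (Fin n)) := by
    ext i; simp
  rw [this, ncard_coe_finset]
  rfl

lemma ncard_between (R : Fin n → Bool) {j k : ℕ} (hjk : j ≤ k) :
    (f '' {i | j ≤ i.1 ∧ i.1 < k ∧ R i = true}).ncard + height R j = height R k := by
  rw [← ncard_below hf R j, ← ncard_below hf R k, ← ncard_union_eq]
  · congr 1
    rw [← image_union]
    congr 1
    ext i
    constructor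
    · rintro (⟨_, h2, h3⟩ | ⟨h1, h2⟩)
      · exact ⟨h2, h3⟩
      · exact ⟨by omega, h2⟩
    · rintro ⟨h1, h2⟩
      by_cases h : j ≤ i.1
      · exact Or.inl ⟨h, h1, h2⟩
      · exact Or.inr ⟨by omega, h2⟩
  · rw [Set.disjoint_left]
    rintro _ ⟨i, ⟨h1, _⟩, rfl⟩ ⟨i', ⟨h2, _⟩, h3⟩
    have := hf h3
    subst this
    omega

end

/-! ### From an order to paths -/

lemma exists_cut {n : ℕ} (g : Fin n → ℤ) (hg : StrictMono g) (s : ℤ) :
    ∃ k, k ≤ n ∧ ∀ i, g i < s ↔ i.1 < k := by
  classical
  by_cases h : ∃ i, s ≤ g i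
  · obtain ⟨i, hi⟩ := h
    obtain ⟨i0, hi0, hmin⟩ := Finset.exists_min_image (Finset.univ.filter fun i => s ≤ g i)
      (fun i => i.1) ⟨i, by simp [hi]⟩
    simp only [Finset.mem_filter, Finset.mem_univ, true_and] at hi0 hmin
    refine ⟨i0.1, i0.2.le, ?_⟩
    intro i
    constructor
    · intro h1
      by_contra h2
      push Not at h2
      have : g i0 ≤ g i := hg.monotone h2
      omega
    · intro h1
      by_contra h2
      push Not at h2
      have := hmin i h2
      omega
  · push Not at h
    exact ⟨n, le_rfl, fun i => ⟨fun _ => i.2, fun _ => h i⟩⟩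

theorem isLPM_of_ordOn {M : Matroid α} [M.Finite] {t : α → ℤ} (ht : OrdOn M M.E t) :
    IsLatticePathMatroid M := by
  classical
  have hE := M.ground_finite
  set r := rk M M.E with hr
  have hrn : r ≤ M.E.ncard := rk_le_ncard subset_rfl
  obtain ⟨m, hm⟩ : ∃ m, M.E.ncard = m + r := ⟨M.E.ncard - r, by omega⟩
  have hScard : (hE.toFinset.image t).card = m + r := by
    rw [Finset.card_image_of_injOn (by rw [Finite.coe_toFinset]; exact ht.1), ← hm,
      ncard_eq_toFinset_card _ hE]
  set S := hE.toFinset.image t with hS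
  let g := S.orderEmbOfFin hScard
  have hgS : ∀ i, ∃ x ∈ M.E, t x = g i := by
    intro i
    have := Finset.orderEmbOfFin_mem S hScard i
    obtain ⟨x, hx, hxt⟩ := Finset.mem_image.1 this
    exact ⟨x, hE.mem_toFinset.1 hx, hxt⟩
  choose f hfE hft using hgS
  have hg : StrictMono g := g.strictMono
  have hfinj : Function.Injective f := by
    intro i j hij
    apply hg.injective
    rw [← hft i, ← hft j, hij]
  have hrange : range f = M.E := by
    apply subset_antisymm
    · rintro _ ⟨i, rfl⟩; exact hfE i
    · intro x hx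
      have h1 : t x ∈ (S : Set ℤ) := by
        rw [hS]; simp only [Finset.coe_image, Finite.coe_toFinset]
        exact mem_image_of_mem t hx
      rw [← Finset.range_orderEmbOfFin S hScard] at h1
      obtain ⟨i, hi⟩ := h1
      refine ⟨i, ht.1 (hfE i) hx ?_⟩
      rw [hft i]; exact hi
  -- the two rank functions
  let I : ℕ → Set α := fun k => f '' {i | i.1 < k}
  let J : ℕ → Set α := fun k => f '' {i | k ≤ i.1}
  have hIE : ∀ k, I k ⊆ M.E := fun k => by rw [← hrange]; exact image_subset_range _ _
  have hJE : ∀ k, J k ⊆ M.E := fun k => by rw [← hrange]; exact image_subset_range _ _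
  let q : ℕ → ℕ := fun k => rk M (I k)
  let p : ℕ → ℕ := fun k => r - rk M (J k)
  have hIs : ∀ k, (hk : k < m + r) → I (k + 1) = insert (f ⟨k, hk⟩) (I k) := by
    intro k hk
    ext x
    constructor
    · rintro ⟨i, hi, rfl⟩
      by_cases h : i.1 = k
      · left; congr 1; exact Fin.ext h
      · right; exact ⟨i, by have h2 : i.1 < k + 1 := hi; show i.1 < k; omega, rfl⟩
    · rintro (h | ⟨i, hi, rfl⟩)
      · rw [h]; exact ⟨⟨k, hk⟩, Nat.lt_succ_self k, rfl⟩
      · exact ⟨i, by have h2 : i.1 < k := hi; show i.1 < k + 1; omega, rfl⟩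
  have hJs : ∀ k, (hk : k < m + r) → J k = insert (f ⟨k, hk⟩) (J (k + 1)) := by
    intro k hk
    ext x
    constructor
    · rintro ⟨i, hi, rfl⟩
      by_cases h : i.1 = k
      · left; congr 1; exact Fin.ext h
      · right; exact ⟨i, by have h2 : k ≤ i.1 := hi; show k + 1 ≤ i.1; omega, rfl⟩
    · rintro (h | ⟨i, hi, rfl⟩)
      · rw [h]; exact ⟨⟨k, hk⟩, le_refl k, rfl⟩
      · exact ⟨i, by have h2 : k + 1 ≤ i.1 := hi; show k ≤ i.1; omega, rfl⟩
  have hins : ∀ (x : α) (X : Set α), x ∈ M.E → X ⊆ M.E → rk M (insert x X) ≤ rk M X + 1 := by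
    intro x X hx hX
    have h1 := rk_submod (M := M) {x} X
    rw [singleton_union] at h1
    have h2 : rk M {x} ≤ 1 := by
      have := rk_le_ncard (M := M) (singleton_subset_iff.2 hx)
      rwa [ncard_singleton] at this
    omega
  have hq0 : q 0 = 0 := by
    show rk M (f '' {i | i.1 < 0}) = 0
    have : {i : Fin (m + r) | i.1 < 0} = ∅ := by ext i; simp
    rw [this, image_empty, indep_rk M.empty_indep, ncard_empty]
  have hqs : ∀ k, k < m + r → q (k + 1) = q k ∨ q (k + 1) = q k + 1 := by
    intro k hk
    have h1 : q k ≤ q (k + 1) := rk_mono (by rw [hIs k hk]; exact subset_insert _ _)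
    have h2 : q (k + 1) ≤ q k + 1 := by
      show rk M (I (k + 1)) ≤ rk M (I k) + 1
      rw [hIs k hk]; exact hins _ _ (hfE _) (hIE k)
    omega
  have hJ0 : J 0 = M.E := by
    show f '' {i | 0 ≤ i.1} = M.E
    have : {i : Fin (m + r) | 0 ≤ i.1} = univ := by ext i; simp
    rw [this, image_univ, hrange]
  have hJr : ∀ k, rk M (J k) ≤ r := fun k => rk_mono (hJE k)
  have hp0 : p 0 = 0 := by
    show r - rk M (J 0) = 0
    rw [hJ0]; omega
  have hps : ∀ k, k < m + r → p (k + 1) = p k ∨ p (k + 1) = p k + 1 := by
    intro k hk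
    have h1 : rk M (J (k + 1)) ≤ rk M (J k) := rk_mono (by rw [hJs k hk]; exact subset_insert _ _)
    have h2 : rk M (J k) ≤ rk M (J (k + 1)) + 1 := by
      rw [hJs k hk]; exact hins _ _ (hfE _) (hJE _)
    have h3 := hJr k
    have h4 := hJr (k + 1)
    show r - rk M (J (k + 1)) = r - rk M (J k) ∨ r - rk M (J (k + 1)) = r - rk M (J k) + 1
    omega
  let P : Fin (m + r) → Bool := fun i => decide (p (i.1 + 1) = p i.1 + 1)
  let Q : Fin (m + r) → Bool := fun i => decide (q (i.1 + 1) = q i.1 + 1)
  have hP : ∀ k, k ≤ m + r → height P k = p k :=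
    height_of_steps p hp0 hps P (fun i => decide_eq_true_iff)
  have hQ : ∀ k, k ≤ m + r → height Q k = q k :=
    height_of_steps q hq0 hqs Q (fun i => decide_eq_true_iff)
  have hIn : I (m + r) = M.E := by
    show f '' {i | i.1 < m + r} = M.E
    have : {i : Fin (m + r) | i.1 < m + r} = univ := by
      ext i; simp only [mem_ofPred_eq, mem_univ, iff_true]; exact i.2
    rw [this, image_univ, hrange]
  have hJn : J (m + r) = ∅ := by
    show f '' {i | m + r ≤ i.1} = ∅
    have : {i : Fin (m + r) | m + r ≤ i.1} = ∅ := by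
      ext i; simp only [mem_ofPred_eq, mem_empty_iff_false, iff_false, not_le]; exact i.2
    rw [this, image_empty]
  have hsub : ∀ k, r ≤ q k + rk M (J k) := by
    intro k
    have h1 := rk_submod (M := M) (I k) (J k)
    have h2 : I k ∪ J k = M.E := by
      rw [← hrange, ← image_univ, ← image_union]
      congr 1
      ext i
      simp only [mem_union, mem_ofPred_eq, mem_univ, iff_true]
      exact lt_or_ge _ _
    rw [h2] at h1
    show r ≤ rk M (I k) + rk M (J k)
    omega
  have hBI : ∀ (R : Fin (m + r) → Bool) k, f '' northSteps R ∩ I k =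
      f '' {i | i.1 < k ∧ R i = true} := by
    intro R k
    rw [← image_inter hfinj]
    congr 1
    ext i
    exact and_comm
  have hBJ : ∀ (R : Fin (m + r) → Bool) k, f '' northSteps R ∩ J k =
      f '' {i | k ≤ i.1 ∧ i.1 < m + r ∧ R i = true} := by
    intro R k
    rw [← image_inter hfinj]
    congr 1
    ext i
    exact ⟨fun h => ⟨h.2, i.2, h.1⟩, fun h => ⟨h.2.2, h.1⟩⟩
  refine ⟨m, r, P, Q, ?_, ?_, ?_, f, hfinj, hrange, ?_⟩
  · show height P (m + r) = r
    rw [hP _ le_rfl]
    show r - rk M (J (m + r)) = r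
    rw [hJn, indep_rk M.empty_indep, ncard_empty, Nat.sub_zero]
  · show height Q (m + r) = r
    rw [hQ _ le_rfl]
    show rk M (I (m + r)) = r
    rw [hIn]
  · intro k hk
    rw [hP k hk, hQ k hk]
    have := hsub k
    show r - rk M (J k) ≤ q k
    omega
  · intro B
    constructor
    · intro hB
      have hBE := hB.subset_ground
      let R : Fin (m + r) → Bool := fun i => decide (f i ∈ B)
      have hBR : B = f '' northSteps R := by
        ext x
        constructor
        · intro hx
          have := hBE hx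
          rw [← hrange] at this
          obtain ⟨i, rfl⟩ := this
          exact ⟨i, decide_eq_true hx, rfl⟩
        · rintro ⟨i, hi, rfl⟩
          exact of_decide_eq_true hi
      have hBc : B.ncard = r := by
        rw [← indep_rk hB.indep, ← rk_closure, hB.closure_eq]
      have hBf : B.Finite := indep_finite hB.indep
      have hRk : ∀ k, height R k = (B ∩ I k).ncard := by
        intro k
        rw [hBR, hBI, ncard_below hfinj]
      have hRn : height R (m + r) = r := by
        rw [hRk, hIn, inter_eq_left.2 hBE, hBc]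
      refine ⟨R, hRn, ?_, ?_, hBR⟩
      · intro k hk
        rw [hP k hk]
        have h1 : (B ∩ J k).ncard ≤ rk M (J k) :=
          indep_le (hB.indep.subset inter_subset_left) inter_subset_right
        have h2 : (B ∩ J k).ncard + height R k = height R (m + r) := by
          rw [hBR, hBJ, ncard_between hfinj R hk]
        have h3 := hJr k
        show r - rk M (J k) ≤ height R k
        omega
      · intro k hk
        rw [hQ k hk, hRk]
        exact indep_le (hB.indep.subset inter_subset_left) inter_subset_right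
    · rintro ⟨R, hRn, hPR, hRQ, hBR⟩
      have hBE : B ⊆ M.E := by rw [hBR, ← hrange]; exact image_subset_range _ _
      have hBc : B.ncard = r := by
        have h1 : B = f '' {i | i.1 < m + r ∧ R i = true} := by
          rw [hBR]; congr 1; ext i
          exact ⟨fun h => ⟨i.2, h⟩, fun h => h.2⟩
        rw [h1, ncard_below hfinj]
        exact hRn
      have hBf : B.Finite := M.set_finite B hBE
      have hind : M.Indep B := by
        by_contra hcon
        rw [Matroid.not_indep_iff hBE] at hcon
        obtain ⟨C, hCB, hC⟩ := hcon.exists_isCircuit_subset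
        obtain ⟨u, s, h1, h2⟩ := ht.2 C hC hC.subset_ground
        obtain ⟨k, hk, hks⟩ := exists_cut (fun i => g i) hg s
        obtain ⟨j, hj, hju⟩ := exists_cut (fun i => g i) hg u
        have hlo : lo M.E t s = I k := by
          ext x
          constructor
          · rintro ⟨hx, hxs⟩
            rw [← hrange] at hx
            obtain ⟨i, rfl⟩ := hx
            rw [hft i] at hxs
            exact ⟨i, (hks i).1 hxs, rfl⟩
          · rintro ⟨i, hi, rfl⟩
            exact ⟨hfE i, by rw [hft i]; exact (hks i).2 hi⟩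
        have hhi : hi M.E t u = J j := by
          ext x
          constructor
          · rintro ⟨hx, hxs⟩
            rw [← hrange] at hx
            obtain ⟨i, rfl⟩ := hx
            rw [hft i] at hxs
            refine ⟨i, ?_, rfl⟩
            show j ≤ i.1
            by_contra hlt
            push Not at hlt
            have := (hju i).2 hlt
            omega
          · rintro ⟨i, hi, rfl⟩
            refine ⟨hfE i, ?_⟩
            rw [hft i]
            by_contra hlt
            push Not at hlt
            have h3 := (hju i).1 hlt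
            have h4 : j ≤ i.1 := hi
            omega
        have hjk : j ≤ k := by
          obtain ⟨c, hc⟩ := hC.nonempty
          have hc2 := hC.subset_ground hc
          rw [← hrange] at hc2
          obtain ⟨i, rfl⟩ := hc2
          have h3 := h1 _ hc
          rw [hft i] at h3
          have h4 := (hks i).1 h3.2
          have h5 : ¬ i.1 < j := fun h => by have := (hju i).2 h; omega
          omega
        rw [hlo, hhi] at h2
        have hCs : C ⊆ f '' {i | j ≤ i.1 ∧ i.1 < k ∧ R i = true} := by
          intro x hx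
          have hxB := hCB hx
          rw [hBR] at hxB
          obtain ⟨i, hi, rfl⟩ := hxB
          have h3 := h1 _ hx
          rw [hft i] at h3
          refine ⟨i, ⟨?_, (hks i).1 h3.2, hi⟩, rfl⟩
          by_contra h
          push Not at h
          have := (hju i).2 h; omega
        have h5 := ncard_le_ncard hCs (toFinite _)
        have h6 := ncard_between hfinj R hjk
        have h7 := hPR j hj
        have h8 := hRQ k hk
        rw [hP j hj] at h7
        rw [hQ k hk] at h8
        have h9 := circuit_ncard hC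
        have h10 := hJr j
        have h11 : r - rk M (J j) ≤ height R j := h7
        have h12 : height R k ≤ rk M (I k) := h8
        omega
      apply hind.isBase_of_ground_subset_closure
      apply subset_closure_of_rk hBE subset_rfl
      rw [indep_rk hind, hBc]

/-! ### From paths to an order -/

/-- the lowest path above `P` through the steps `X` -/
noncomputable def rho {n : ℕ} (P X : Fin n → Bool) : ℕ → ℕ
  | 0 => 0
  | (k + 1) => open Classical in
      if (∃ h : k < n, X ⟨k, h⟩ = true) then rho P X k + 1 else max (rho P X k) (height P (k + 1))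

lemma exists_path {n : ℕ} (P Q X : Fin n → Bool)
    (h : ∀ j k, j ≤ k → k ≤ n → height X k + height P j ≤ height X j + height Q k) :
    ∃ R : Fin n → Bool, NeverAbove P R ∧ NeverAbove R Q ∧ ∀ i, X i = true → R i = true := by
  classical
  have hPs : ∀ k, k < n → height P (k + 1) ≤ height P k + 1 := by
    intro k hk
    rw [height_succ P k hk]
    split_ifs <;> omega
  have ha : ∀ k, k ≤ n → height P k ≤ rho P X k := by
    intro k
    induction k with
    | zero => intro _; rw [height_zero]; exact Nat.zero_le _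
    | succ k ih =>
      intro hk
      have h1 := ih (by omega)
      have h2 := hPs k hk
      show height P (k + 1) ≤ if (∃ h : k < n, X ⟨k, h⟩ = true) then rho P X k + 1
        else max (rho P X k) (height P (k + 1))
      split_ifs
      · omega
      · exact le_max_right _ _
  have hb : ∀ k, k ≤ n → ∃ j, j ≤ k ∧ rho P X k + height X j = height P j + height X k := by
    intro k
    induction k with
    | zero => intro _; exact ⟨0, le_rfl, by show 0 + _ = _; rw [height_zero, height_zero]⟩
    | succ k ih =>
      intro hk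
      obtain ⟨j, hj, hjk⟩ := ih (by omega)
      have hX := height_succ X k hk
      by_cases hx : X ⟨k, hk⟩ = true
      · refine ⟨j, by omega, ?_⟩
        have h3 : rho P X (k + 1) = rho P X k + 1 := if_pos ⟨hk, hx⟩
        rw [if_pos hx] at hX
        omega
      · rw [if_neg hx] at hX
        have h3 : rho P X (k + 1) = max (rho P X k) (height P (k + 1)) :=
          if_neg (fun ⟨_, h'⟩ => hx h')
        rcases le_total (rho P X k) (height P (k + 1)) with h4 | h4
        · refine ⟨k + 1, le_rfl, ?_⟩
          rw [h3, max_eq_right h4]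
        · refine ⟨j, by omega, ?_⟩
          rw [h3, max_eq_left h4]
          omega
  have hc : ∀ k, k < n → rho P X (k + 1) = rho P X k ∨ rho P X (k + 1) = rho P X k + 1 := by
    intro k hk
    have h1 := ha k hk.le
    have h2 := hPs k hk
    by_cases hx : X ⟨k, hk⟩ = true
    · right; exact if_pos ⟨hk, hx⟩
    · have h3 : rho P X (k + 1) = max (rho P X k) (height P (k + 1)) :=
        if_neg (fun ⟨_, h'⟩ => hx h')
      rw [h3]
      rcases le_total (rho P X k) (height P (k + 1)) with h4 | h4
      · rw [max_eq_right h4]; omega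
      · rw [max_eq_left h4]; left; rfl
  let R : Fin n → Bool := fun i => decide (rho P X (i.1 + 1) = rho P X i.1 + 1)
  have hR : ∀ k, k ≤ n → height R k = rho P X k :=
    height_of_steps (rho P X) rfl hc R (fun i => decide_eq_true_iff)
  refine ⟨R, ?_, ?_, ?_⟩
  · intro k hk; rw [hR k hk]; exact ha k hk
  · intro k hk
    rw [hR k hk]
    obtain ⟨j, hj, hjk⟩ := hb k hk
    have := h j k hj hk
    omega
  · intro i hi
    apply decide_eq_true
    exact if_pos ⟨i.2, hi⟩

theorem ordOn_of_isLPM {M : Matroid α} [M.Finite] (h : IsLatticePathMatroid M) :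
    ∃ t, OrdOn M M.E t := by
  classical
  obtain ⟨m, r, P, Q, hP, hQ, hPQ, f, hf, hrange, hbase⟩ := h
  have hfE : ∀ i, f i ∈ M.E := fun i => by rw [← hrange]; exact mem_range_self i
  let t : α → ℤ := fun x => if h : ∃ i, f i = x then ((h.choose.1 : ℕ) : ℤ) else 0
  have ht : ∀ i, t (f i) = ((i.1 : ℕ) : ℤ) := by
    intro i
    have h : ∃ j, f j = f i := ⟨i, rfl⟩
    have h1 : t (f i) = ((h.choose.1 : ℕ) : ℤ) := dif_pos h
    rw [h1, hf h.choose_spec]
  have hbetween : ∀ (Y : Set α), M.Indep Y → ∀ j k, j ≤ k → k ≤ m + r →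
      (Y ∩ f '' {i | j ≤ i.1 ∧ i.1 < k}).ncard + height P j ≤ height Q k := by
    intro Y hY j k hjk hk
    obtain ⟨B, hB, hYB⟩ := hY.exists_isBase_superset
    obtain ⟨R, hRn, hPR, hRQ, hBR⟩ := (hbase B).1 hB
    have h1 : Y ∩ f '' {i | j ≤ i.1 ∧ i.1 < k} ⊆ f '' {i | j ≤ i.1 ∧ i.1 < k ∧ R i = true} := by
      rintro x ⟨hx, ⟨i, hi, rfl⟩⟩
      have h2 := hYB hx
      rw [hBR] at h2
      obtain ⟨i', hi', h3⟩ := h2
      have := hf h3
      subst this
      exact ⟨i', ⟨hi.1, hi.2, hi'⟩, rfl⟩
    have h2 := ncard_le_ncard h1 (toFinite _)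
    have h3 := ncard_between hf R hjk
    have h4 := hPR j (hjk.trans hk)
    have h5 := hRQ k hk
    omega
  have hbaseR : ∀ R : Fin (m + r) → Bool, IsPath m r R → NeverAbove P R → NeverAbove R Q →
      M.IsBase (f '' northSteps R) := fun R h1 h2 h3 => (hbase _).2 ⟨R, h1, h2, h3, rfl⟩
  have hPb : M.Indep (f '' northSteps P) :=
    (hbaseR P hP (fun k _ => le_rfl) hPQ).indep
  have hQb : M.Indep (f '' northSteps Q) :=
    (hbaseR Q hQ hPQ (fun k _ => le_rfl)).indep
  have hlo : ∀ k : ℕ, lo M.E t (k : ℤ) = f '' {i | i.1 < k} := by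
    intro k
    ext x
    constructor
    · rintro ⟨hx, hxk⟩
      rw [← hrange] at hx
      obtain ⟨i, rfl⟩ := hx
      rw [ht i] at hxk
      exact ⟨i, by show i.1 < k; exact_mod_cast hxk, rfl⟩
    · rintro ⟨i, hi, rfl⟩
      refine ⟨hfE i, ?_⟩
      rw [ht i]
      have : i.1 < k := hi
      exact_mod_cast this
  have hhi : ∀ k : ℕ, hi M.E t (k : ℤ) = f '' {i | k ≤ i.1} := by
    intro k
    ext x
    constructor
    · rintro ⟨hx, hxk⟩
      rw [← hrange] at hx
      obtain ⟨i, rfl⟩ := hx
      rw [ht i] at hxk
      exact ⟨i, by show k ≤ i.1; exact_mod_cast hxk, rfl⟩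
    · rintro ⟨i, hi, rfl⟩
      refine ⟨hfE i, ?_⟩
      rw [ht i]
      have : k ≤ i.1 := hi
      exact_mod_cast this
  have hrlo : ∀ k, k ≤ m + r → rk M (f '' {i | i.1 < k}) = height Q k := by
    intro k hk
    apply le_antisymm
    · obtain ⟨I, hI⟩ := M.exists_isBasis (f '' {i | i.1 < k})
        (by rw [← hrange]; exact image_subset_range _ _)
      have h1 := hbetween I hI.indep 0 k (Nat.zero_le _) hk
      have h2 : I ∩ f '' {i | 0 ≤ i.1 ∧ i.1 < k} = I := by
        apply inter_eq_left.2
        refine hI.subset.trans (image_mono ?_)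
        intro i hi; exact ⟨Nat.zero_le _, hi⟩
      rw [h2, basis_ncard hI, height_zero] at h1
      omega
    · have h1 : f '' {i | i.1 < k ∧ Q i = true} ⊆ f '' northSteps Q :=
        image_mono (fun i hi => hi.2)
      rw [← ncard_below hf Q k]
      exact indep_le (hQb.subset h1) (image_mono (fun i hi => hi.1))
  have hrhi : ∀ j, j ≤ m + r → rk M (f '' {i | j ≤ i.1}) + height P j = r := by
    intro j hj
    apply le_antisymm
    · obtain ⟨I, hI⟩ := M.exists_isBasis (f '' {i | j ≤ i.1})
        (by rw [← hrange]; exact image_subset_range _ _)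
      have h1 := hbetween I hI.indep j (m + r) hj le_rfl
      have h2 : I ∩ f '' {i | j ≤ i.1 ∧ i.1 < m + r} = I := by
        apply inter_eq_left.2
        refine hI.subset.trans (image_mono ?_)
        intro i hi; exact ⟨hi, i.2⟩
      rw [h2, basis_ncard hI] at h1
      have hQ' : height Q (m + r) = r := hQ
      omega
    · have h1 : f '' {i | j ≤ i.1 ∧ i.1 < m + r ∧ P i = true} ⊆ f '' northSteps P :=
        image_mono (fun i hi => hi.2.2)
      have h2 := ncard_between hf P hj
      have h3 : (f '' {i | j ≤ i.1 ∧ i.1 < m + r ∧ P i = true}).ncard ≤ rk M (f '' {i | j ≤ i.1}) :=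
        indep_le (hPb.subset h1) (image_mono (fun i hi => hi.1))
      have hP' : height P (m + r) = r := hP
      omega
  have hrE : rk M M.E = r := by
    have h1 := hrlo (m + r) le_rfl
    have h2 : f '' {i | i.1 < m + r} = M.E := by
      have : {i : Fin (m + r) | i.1 < m + r} = univ := by
        ext i; simp only [mem_ofPred_eq, mem_univ, iff_true]; exact i.2
      rw [this, image_univ, hrange]
    rw [h2] at h1
    rw [h1]; exact hQ
  refine ⟨t, ?_, ?_⟩
  · intro x hx y hy hxy
    rw [← hrange] at hx hy
    obtain ⟨i, rfl⟩ := hx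
    obtain ⟨j, rfl⟩ := hy
    rw [ht i, ht j] at hxy
    have : i.1 = j.1 := by exact_mod_cast hxy
    rw [Fin.ext this]
  · intro C hC hCE
    let X : Fin (m + r) → Bool := fun i => decide (f i ∈ C)
    have hCX : C = f '' northSteps X := by
      ext x
      constructor
      · intro hx
        have := hCE hx
        rw [← hrange] at this
        obtain ⟨i, rfl⟩ := this
        exact ⟨i, decide_eq_true hx, rfl⟩
      · rintro ⟨i, hi, rfl⟩
        exact of_decide_eq_true hi
    have hviol : ∃ j k, j ≤ k ∧ k ≤ m + r ∧ height X j + height Q k < height X k + height P j := by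
      by_contra hcon
      push Not at hcon
      obtain ⟨R, hPR, hRQ, hXR⟩ := exists_path P Q X hcon
      have hRn : IsPath m r R := by
        have h1 := hPR (m + r) le_rfl
        have h2 := hRQ (m + r) le_rfl
        have hP' : height P (m + r) = r := hP
        have hQ' : height Q (m + r) = r := hQ
        show height R (m + r) = r
        omega
      have h1 := (hbaseR R hRn hPR hRQ).indep
      apply hC.not_indep
      apply h1.subset
      rw [hCX]
      exact image_mono (fun i hi => hXR i hi)
    obtain ⟨j, k, hjk, hk, hv⟩ := hviol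
    have hcount : (C ∩ f '' {i | j ≤ i.1 ∧ i.1 < k}).ncard + height X j = height X k := by
      have h1 : C ∩ f '' {i | j ≤ i.1 ∧ i.1 < k} = f '' {i | j ≤ i.1 ∧ i.1 < k ∧ X i = true} := by
        rw [hCX, ← image_inter hf]
        congr 1
        ext i
        exact ⟨fun h => ⟨h.2.1, h.2.2, h.1⟩, fun h => ⟨h.2.2, h.1, h.2.1⟩⟩
      rw [h1]; exact ncard_between hf X hjk
    have hsubC : C ⊆ f '' {i | j ≤ i.1 ∧ i.1 < k} := by
      intro c hc
      by_contra hcn
      have h1 := hbetween _ (hC.sdiff_singleton_indep hc) j k hjk hk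
      have h2 : (C \ {c}) ∩ f '' {i | j ≤ i.1 ∧ i.1 < k} = C ∩ f '' {i | j ≤ i.1 ∧ i.1 < k} := by
        ext x
        constructor
        · rintro ⟨⟨h3, _⟩, h4⟩; exact ⟨h3, h4⟩
        · rintro ⟨h3, h4⟩
          refine ⟨⟨h3, ?_⟩, h4⟩
          intro h5
          rw [mem_singleton_iff.1 h5] at h4
          exact hcn h4
      rw [h2] at h1
      omega
    rw [inter_eq_left.2 hsubC] at hcount
    obtain ⟨c, hc⟩ := hC.nonempty
    have h1 := hbetween _ (hC.sdiff_singleton_indep hc) j k hjk hk
    have h2 : (C \ {c}) ∩ f '' {i | j ≤ i.1 ∧ i.1 < k} = C \ {c} :=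
      inter_eq_left.2 (sdiff_subset.trans hsubC)
    rw [h2] at h1
    have h3 := ncard_sdiff_singleton_add_one hc (circuit_finite hC)
    have h4 := circuit_ncard hC
    refine ⟨(j : ℤ), (k : ℤ), ?_, ?_⟩
    · intro x hx
      obtain ⟨i, hi, rfl⟩ := hsubC hx
      rw [ht i]
      exact ⟨by exact_mod_cast hi.1, by exact_mod_cast hi.2⟩
    · rw [hlo, hhi, hrlo k hk, hrE]
      have h5 := hrhi j (hjk.trans hk)
      omega

theorem isLPM_iff {M : Matroid α} [M.Finite] :
    IsLatticePathMatroid M ↔ ∀ K, Comp M K → Cond M K := by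
  rw [← exists_order_iff]
  exact ⟨fun h => ordOn_of_isLPM h, fun ⟨_, ht⟩ => isLPM_of_ordOn ht⟩

end Pool.Agent.W307.LP
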